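import Pool.Agent.Y671.GL.Cg

set_option autoImplicit false

/-!
The Euler product of a form, and the conjugate form.
-/

namespace Pool.Agent.X244.AZ

open Complex Filter Topology
open Pool.Agent.Y671.GL
open scoped ComplexConjugate

theorem euler {k N : ℕ} {ps lam : ℕ → ℂ} {Z : ℂ → ℂ} (hf : Frm k N ps lam) (hL : IsL lam Z) {s : ℂ}
    (hs : 1 < s.re) : HasProd (fun p : Nat.Primes =>
      (1 - lam p * ((p : ℕ) : ℂ) ^ (-s) + ps p * (((p : ℕ) : ℂ) ^ (-s)) ^ 2)⁻¹) (Z s) := by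
  obtain ⟨-, -, -, hS⟩ := Pool.Agent.Y771.GL.mf k N ps lam hf
  have h1 := (hS s.re hs).1
  obtain ⟨g, hg⟩ : ∃ g : ℕ → ℂ, g = fun n => lam n * (n : ℂ) ^ (-s) := ⟨_, rfl⟩
  have hge : ∀ n, g n = lam n * (n : ℂ) ^ (-s) := fun n => by rw [hg]
  have hsum : Summable (fun n => ‖g n‖) := by
    refine h1.congr fun n => ?_
    rcases Nat.eq_zero_or_pos n with rfl | hn
    · rw [hge, hf.zero]
      simp
    · rw [hge, norm_mul, Complex.norm_natCast_cpow_of_pos hn, Complex.neg_re]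
  have hg1 : g 1 = 1 := by
    rw [hge, hf.one, Nat.cast_one, Complex.one_cpow, one_mul]
  have hg0 : g 0 = 0 := by
    rw [hge, hf.zero, zero_mul]
  have hmul : ∀ {m n : ℕ}, m.Coprime n → g (m * n) = g m * g n := by
    intro m n hmn
    rw [hge, hge, hge, hf.mul m n hmn, Nat.cast_mul, Complex.natCast_mul_natCast_cpow]
    ring
  have key := EulerProduct.eulerProduct_hasProd hg1 hmul hsum hg0
  have hZ : ∑' n, g n = Z s := by
    rw [hL.ser s hs, hg]
  rw [hZ] at key
  refine key.congr_fun fun p => ?_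
  have hp := p.2
  obtain ⟨x, hx⟩ : ∃ x : ℂ, x = ((p : ℕ) : ℂ) ^ (-s) := ⟨_, rfl⟩
  rw [← hx]
  have hpe : ∀ e : ℕ, g ((p : ℕ) ^ e) = lam ((p : ℕ) ^ e) * x ^ e := by
    intro e
    rw [hge, Nat.cast_pow, ← Complex.natCast_cpow_natCast_mul, Complex.cpow_nat_mul, hx]
  have hse : Summable (fun e : ℕ => g ((p : ℕ) ^ e)) :=
    hsum.of_norm.comp_injective (Nat.pow_right_injective hp.two_le)
  have hse1 : Summable (fun e : ℕ => g ((p : ℕ) ^ (e + 1))) :=
    (summable_nat_add_iff (f := fun e : ℕ => g ((p : ℕ) ^ e)) 1).2 hse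
  have h0 : ∑' e : ℕ, g ((p : ℕ) ^ e) = 1 + ∑' e : ℕ, g ((p : ℕ) ^ (e + 1)) := by
    rw [hse.tsum_eq_zero_add, pow_zero, hg1]
  have h2 : ∑' e : ℕ, g ((p : ℕ) ^ (e + 1)) = lam p * x + ∑' e : ℕ, g ((p : ℕ) ^ (e + 2)) := by
    rw [hse1.tsum_eq_zero_add, zero_add, hpe 1, pow_one, pow_one]
  have h3 : ∑' e : ℕ, g ((p : ℕ) ^ (e + 2)) =
      lam p * x * ∑' e : ℕ, g ((p : ℕ) ^ (e + 1)) - ps p * x ^ 2 * ∑' e : ℕ, g ((p : ℕ) ^ e) := by
    rw [← tsum_mul_left, ← tsum_mul_left, ← (hse1.mul_left _).tsum_sub (hse.mul_left _)]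
    refine tsum_congr fun e => ?_
    rw [hpe, hpe, hpe, hf.pow p e hp]
    ring
  obtain ⟨S, hSd⟩ : ∃ S : ℂ, S = ∑' e : ℕ, g ((p : ℕ) ^ e) := ⟨_, rfl⟩
  obtain ⟨S1, hS1d⟩ : ∃ S1 : ℂ, S1 = ∑' e : ℕ, g ((p : ℕ) ^ (e + 1)) := ⟨_, rfl⟩
  rw [h3] at h2
  rw [← hSd, ← hS1d] at h0 h2
  rw [← hSd]
  symm
  refine eq_inv_of_mul_eq_one_left ?_
  linear_combination (1 - lam p * x) * h0 + h2

theorem Ph_cj (k : ℕ) (lam : ℕ → ℂ) (z : ℂ) : Ph k (fun n => conj (lam n)) z = conj (Ph k lam (conj z)) := by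
  unfold Ph
  rw [Complex.conj_tsum]
  refine tsum_congr fun n => ?_
  unfold aa
  rw [map_mul, map_mul, Complex.conj_ofReal, ← Complex.exp_conj, map_neg, map_mul, Complex.conj_natCast,
    Complex.conj_conj]

/-- the conjugate form -/
theorem frm_conj {k N : ℕ} {ps lam : ℕ → ℂ} (hf : Frm k N ps lam) :
    Frm k N (fun n => conj (ps n)) (fun n => conj (lam n)) := by
  have hre : ∀ {z : ℂ}, 0 < z.re → 0 < (conj z).re := fun {z} hz => by simpa using hz
  refine ⟨hf.k_pos, hf.N_pos, by rw [hf.zero, map_zero], by rw [hf.one, map_one], ?_, ?_, ?_, ?_, ?_, ?_, ?_, ?_⟩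
  · intro m n hmn
    rw [hf.mul m n hmn, map_mul]
  · intro p j hp
    rw [hf.pow p j hp, map_sub, map_mul, map_mul]
  · intro p
    rw [Complex.norm_conj]
    exact hf.ps_le p
  · obtain ⟨th, C, h1, h2, h3⟩ := hf.ram
    exact ⟨th, C, h1, h2, fun n hn => by rw [Complex.norm_conj]; exact h3 n hn⟩
  · obtain ⟨C, h⟩ := hf.rs
    refine ⟨C, fun x hx => ?_⟩
    simp only [Complex.norm_conj]
    exact h x hx
  · obtain ⟨C, h⟩ := hf.bd
    refine ⟨C, fun z hz => ?_⟩
    rw [Ph_cj, Complex.norm_conj]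
    have := h (conj z) (hre hz)
    rwa [Complex.conj_re] at this
  · obtain ⟨ch, hch, hc⟩ := hf.cusp
    refine ⟨fun a => conj (ch (-a)) * (-1) ^ k, ?_, ?_⟩
    · intro a ha
      rw [norm_mul, Complex.norm_conj, hch (-a) (by rwa [IsCoprime.neg_left_iff]), norm_pow, norm_neg, norm_one,
        one_pow, one_mul]
    · intro q a b hq hN hab z hz
      have h1 := hc q (-a) (-b) hq hN (by simpa using hab) (conj z) (hre hz)
      have hq0 : (q : ℂ) ≠ 0 := by exact_mod_cast (by omega : q ≠ 0)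
      have hz0 : z ≠ 0 := by
        intro h; rw [h] at hz; simp at hz
      have h2c : conj (2 : ℂ) = 2 := Complex.conj_ofNat 2
      have h4c : conj (4 : ℂ) = 4 := Complex.conj_ofNat 4
      have e1 : conj (z + 2 * Real.pi * I * a / q) = conj z + 2 * Real.pi * I * ((-a : ℤ) : ℂ) / q := by
        simp only [map_add, map_div₀, map_mul, Complex.conj_I, Complex.conj_ofReal, Complex.conj_natCast,
          map_intCast, h2c]
        push_cast
        ring
      have e2 : conj (4 * Real.pi ^ 2 / (q ^ 2 * z) - 2 * Real.pi * I * b / q) =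
          4 * Real.pi ^ 2 / (q ^ 2 * conj z) - 2 * Real.pi * I * ((-b : ℤ) : ℂ) / q := by
        simp only [map_sub, map_div₀, map_mul, map_pow, Complex.conj_I, Complex.conj_ofReal, Complex.conj_natCast,
          map_intCast, h2c, h4c]
        push_cast
        ring
      rw [Ph_cj, Ph_cj, e1, e2, h1, map_mul, map_mul, map_pow]
      have e3 : conj (2 * Real.pi / (I * q * conj z)) = (-1) * (2 * Real.pi / (I * q * z)) := by
        simp only [map_div₀, map_mul, Complex.conj_I, Complex.conj_ofReal, Complex.conj_natCast,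
          Complex.conj_conj, h2c]
        have := Complex.I_ne_zero
        field_simp
      rw [e3, mul_pow]
      ring
  · obtain ⟨ε, hε, h⟩ := hf.fricke
    refine ⟨conj ε, by rw [Complex.norm_conj]; exact hε, fun z hz => ?_⟩
    have h1 := h (conj z) (hre hz)
    have h2c : conj (2 : ℂ) = 2 := Complex.conj_ofNat 2
    have h4c : conj (4 : ℂ) = 4 := Complex.conj_ofNat 4
    have e1 : conj (4 * Real.pi ^ 2 / (N * z)) = (4 * Real.pi ^ 2 / (N * conj z) : ℂ) := by
      simp only [map_div₀, map_mul, map_pow, Complex.conj_ofReal, Complex.conj_natCast, h4c]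
    rw [Ph_cj, e1, h1, map_mul, map_mul, map_pow, Ph_cj k (fun n => conj (lam n)) z]
    congr 2
    simp only [map_div₀, map_mul, Complex.conj_ofReal, Complex.conj_conj, h2c]

/-- the conjugate L-function -/
theorem isL_conj {lam : ℕ → ℂ} {Z : ℂ → ℂ} (hL : IsL lam Z) :
    IsL (fun n => conj (lam n)) (fun s => conj (Z (conj s))) := by
  refine ⟨?_, ?_⟩
  · intro z
    have := (hL.diff (conj z)).conj_conj
    rwa [Complex.conj_conj] at this
  · intro s hs
    rw [hL.ser (conj s) (by simpa using hs), Complex.conj_tsum]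
    refine tsum_congr fun n => ?_
    rw [map_mul]
    congr 1
    have h1 : (n : ℂ).arg ≠ Real.pi := by
      rw [Complex.natCast_arg]
      exact Real.pi_ne_zero.symm
    have h2 := Complex.cpow_conj (n : ℂ) (-conj s) h1
    rw [map_neg, Complex.conj_natCast, Complex.conj_conj] at h2
    exact h2.symm ▸ rfl

end Pool.Agent.X244.AZ
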