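import Pool.Agent.X244.AZ.W1
import Pool.Agent.Y671.GL.Fin
import Pool.Agent.W440.TC.Twist
import Pool.Agent.W108.TW.Mellin
import Pool.Agent.W820.TW.FE
import Pool.Agent.W355.UN.Fin
import Pool.Agent.W355.UN.Inst2

set_option autoImplicit false

/-!
The completed L-function of a newform of weight one.
-/

namespace Pool.Agent.X244.AZ

open UpperHalfPlane hiding I
open MatrixGroups CongruenceSubgroup Filter Topology Complex
open Pool.Agent.Y671.GL
open Pool.Agent.W355.UN (Eu2 Pk pk_raw RawL acond cser nf_raw)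
open Pool.Agent.W355.LJ (IsNF)
open scoped ComplexConjugate

/-- a newform of weight one with bounded Satake parameters -/
structure NF1 (N : ℕ) (ψ : DirichletCharacter ℂ N)
    (f : CuspForm (Gamma1 N : Subgroup (GL (Fin 2) ℝ)) 1) (η : ℂ) : Prop where
  nf : W388.IsNewfC N 1 ψ f η
  bd : ∀ p : ℕ, p.Prime → ∃ u v : ℂ, ‖u‖ ≤ 1 ∧ ‖v‖ ≤ 1 ∧ al f p = u + v ∧ ψ (p : ZMod N) = u * v

variable {N : ℕ} [NeZero N] {ψ : DirichletCharacter ℂ N}
  {f : CuspForm (Gamma1 N : Subgroup (GL (Fin 2) ℝ)) 1} {η : ℂ}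

omit [NeZero N] in
theorem lamC_al (n : ℕ) : W388.lamC f n = al f n := by
  unfold W388.lamC al
  simp

theorem exists_Z1 (hf : NF1 N ψ f η) : ∃ Z : ℂ → ℂ, W388.FE2 1 N 1 Z ∧ IsL (al f) Z := by
  have hF := frm_al hf.nf hf.bd
  obtain ⟨-, -, -, hS⟩ := Pool.Agent.Y771.GL.mf 1 N _ _ hF
  obtain ⟨Z, hZ, hZs⟩ := W388.exists_twistC Pool.Agent.W440.TC.t_twistC Pool.Agent.W108.TW.t_mellin le_rfl hf.nf
    (by
      intro q _ χ s hs
      refine ((hS s.re hs).1).of_nonneg_of_le (fun n => norm_nonneg _) fun n => ?_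
      rcases Nat.eq_zero_or_pos n with rfl | hn
      · rw [W388.lamC_zero]
        simp
        positivity
      · rw [norm_mul, norm_mul, Complex.norm_natCast_cpow_of_pos hn, Complex.neg_re, lamC_al]
        have h1 : ‖χ (n : ZMod q)‖ ≤ 1 := χ.norm_le_one _
        have h3 : 0 ≤ ‖al f n‖ * (n : ℝ) ^ (-s.re) := by positivity
        nlinarith) 1 1
    DirichletCharacter.isPrimitive_one_level_one (Nat.coprime_one_left N)
  refine ⟨Z, by simpa using hZ, hZ.diff, ?_⟩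
  intro s hs
  rw [hZs s hs]
  refine tsum_congr fun n => ?_
  have h1 : (1 : DirichletCharacter ℂ 1) ((n : ℕ) : ZMod 1) = 1 := by
    apply MulChar.one_apply
    exact isUnit_of_subsingleton _
  rw [h1, one_mul, lamC_al]

theorem raw1 (hf : NF1 N ψ f η) : ∃ (c : ℕ → ℂ) (X : ℂ → ℂ), RawL [0, 1] 0 N (al f) c X := by
  have hE := eu2_al hf.nf hf.bd
  have hw : ‖η / Complex.I‖ = 1 := by
    rw [norm_div, Complex.norm_I, hf.nf.sign, div_one]
  have hnf : IsNF N 1 f (η / Complex.I) := by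
    refine ⟨hf.nf.one, hw, fun τ τ' τ'' a b => ?_⟩
    have h1 := hf.nf.fricke τ τ' τ'' a b
    rw [h1, zpow_one, pow_one]
    have hI := Complex.I_ne_zero
    field_simp
  have e1 : ∀ n : ℕ, (((n : ℝ) ^ (-((((1 : ℕ) : ℝ) - 1) / 2)) : ℝ) : ℂ) = 1 := fun n => by simp
  have hE' : Eu2 fun n => (qExpansion 1 f).coeff n *
      ((((n : ℝ) ^ (-((((1 : ℕ) : ℝ) - 1) / 2)) : ℝ)) : ℂ) := by
    simp only [e1, mul_one]
    exact hE
  obtain ⟨c, X, h⟩ := nf_raw f le_rfl hnf hE'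
  simp only [e1, mul_one] at h
  have e2 : (((((((1 : ℕ) : ℝ) - 1) / 2) : ℝ)) : ℂ) = 0 := by simp
  have e3 : (((((((1 : ℕ) : ℝ) + 1) / 2) : ℝ)) : ℂ) = 1 := by norm_num
  rw [e2, e3] at h
  exact ⟨c, X, h⟩

theorem gam_eq {N : ℕ} (hN : 0 < N) (s : ℂ) :
    2 * ((Real.sqrt N / (2 * Real.pi) : ℝ) : ℂ) ^ s * Complex.Gamma s = ((N : ℝ) : ℂ) ^ (s / 2) * Complex.Gammaℂ s := by
  have hN0 : (0 : ℝ) < N := by exact_mod_cast hN
  have hpi := Real.pi_pos
  rw [Complex.Gammaℂ_def]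
  have e1 : ((Real.sqrt N / (2 * Real.pi) : ℝ) : ℂ) ^ s = ((N : ℝ) : ℂ) ^ (s / 2) * (2 * Real.pi : ℂ) ^ (-s) := by
    rw [div_eq_mul_inv, Complex.ofReal_mul,
      Complex.mul_cpow_ofReal_nonneg (Real.sqrt_nonneg _) (by positivity)]
    congr 1
    · have h2 : ((N : ℝ) : ℂ) = ((Real.sqrt N : ℝ) : ℂ) * ((Real.sqrt N : ℝ) : ℂ) := by
        rw [← Complex.ofReal_mul, Real.mul_self_sqrt hN0.le]
      have h3 : ((Real.sqrt N : ℝ) : ℂ) ≠ 0 := by exact_mod_cast (Real.sqrt_pos.2 hN0).ne'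
      rw [h2, Complex.mul_cpow_ofReal_nonneg (Real.sqrt_nonneg _) (Real.sqrt_nonneg _),
        ← Complex.cpow_add _ _ h3]
      congr 1
      ring
    · have h2 : (2 * Real.pi : ℂ) = ((2 * Real.pi : ℝ) : ℂ) := by push_cast; rfl
      rw [h2, Complex.cpow_neg]
      refine eq_inv_of_mul_eq_one_left ?_
      rw [← Complex.mul_cpow_ofReal_nonneg (by positivity) (by positivity), ← Complex.ofReal_mul,
        inv_mul_cancel₀ (by positivity), Complex.ofReal_one, Complex.one_cpow]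
  rw [e1]
  ring

/-- the completed series with the Gamma factor of the theory -/
theorem cser_eq {F : ℂ → ℂ} (hF : Frm 1 N (ps ψ) (al f)) (hL : IsL (al f) F) {s : ℂ} (hs : 1 < s.re) :
    cser 0 N [0, 1] (al f) s =
      2 * ((Real.sqrt N / (2 * Real.pi) : ℝ) : ℂ) ^ s * Complex.Gamma s * F s := by
  have h1 := Complex.Gammaℝ_mul_Gammaℝ_add_one s
  unfold cser
  rw [pow_zero, one_mul, ser_eq hF hL hs, gam_eq (Nat.pos_of_ne_zero (NeZero.ne N))]
  simp only [List.map_cons, List.map_nil, List.prod_cons, List.prod_nil, mul_one, add_zero]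
  rw [h1]

/-- **the completed L-function** -/
theorem ldata1 (hf : NF1 N ψ f η) :
    ∃ (c : ℝ) (u c0 : ℂ) (Λ Z : ℂ → ℂ), c0 ≠ 0 ∧ Pk 2 N (acond N [0, 1]) (cser 0 N [0, 1] (al f)) Λ ∧
      IsL (al f) Z ∧ LData 1 c u (fun z => c0 * Λ (1 / 2 + z)) Z ∧
      (∀ s : ℂ, (1 < s.re ∨ s.im ≠ 0) → Λ s =
        2 * ((Real.sqrt N / (2 * Real.pi) : ℝ) : ℂ) ^ s * Complex.Gamma s * Z s) := by
  obtain ⟨F, hFE, hF⟩ := exists_Z1 hf
  have hfrm := frm_al hf.nf hf.bd
  have hN0 : (0 : ℝ) < N := by exact_mod_cast Nat.pos_of_ne_zero (NeZero.ne N)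
  have hN1 : (1 : ℝ) ≤ N := by exact_mod_cast Nat.one_le_iff_ne_zero.2 (NeZero.ne N)
  have hsN : 0 < Real.sqrt N := Real.sqrt_pos.2 hN0
  have hpi0 := Real.pi_pos
  obtain ⟨cc, X0, hraw⟩ := raw1 hf
  have hpk := pk_raw hraw
  have hpk' : Pk 2 N (acond N [0, 1]) (cser 0 N [0, 1] (al f)) X0 := hpk
  have hd := hpk.diff
  obtain ⟨w', hw', hfe⟩ := hpk.fe
  obtain ⟨μ, L, ul, ec, σ0, hσ0⟩ := hpk
  -- the constant
  obtain ⟨c0, hc0⟩ : ∃ c0 : ℂ, c0 ^ 2 = conj w' := IsAlgClosed.exists_pow_nat_eq _ (by norm_num)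
  have hc0n : ‖c0‖ = 1 := by
    have h1 := congrArg norm hc0
    rw [norm_pow, Complex.norm_conj, hw'] at h1
    nlinarith [norm_nonneg c0]
  have hc00 : c0 ≠ 0 := by
    intro h; rw [h, norm_zero] at hc0n; exact zero_ne_one hc0n
  have hc0w : c0 * w' = conj c0 := by
    apply mul_left_cancel₀ hc00
    have h1 : conj w' * w' = 1 := by
      rw [mul_comm, Complex.mul_conj, Complex.normSq_eq_norm_sq, hw']
      simp
    have h2 : c0 * conj c0 = 1 := by
      rw [Complex.mul_conj, Complex.normSq_eq_norm_sq, hc0n]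
      simp
    rw [h2, ← mul_assoc, ← sq, hc0, h1]
  obtain ⟨c, hc⟩ : ∃ c : ℝ, c = Real.sqrt N / (2 * Real.pi) := ⟨_, rfl⟩
  have hcp : 0 < c := by rw [hc]; positivity
  have hcc : (c : ℂ) ≠ 0 := by exact_mod_cast hcp.ne'
  -- large real part
  have hbig : ∀ s : ℂ, max σ0 2 ≤ s.re → X0 s = 2 * (c : ℂ) ^ s * Complex.Gamma s * F s := by
    intro s hs
    rw [hσ0 s ((le_max_left _ _).trans hs), cser_eq hfrm hF (by linarith [(le_max_right σ0 2).trans hs]), ← hc]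
  -- the identity on the slit plane
  obtain ⟨U, hU⟩ : ∃ U : Set ℂ, U = {z : ℂ | 0 < z.re ∨ z.im ≠ 0} := ⟨_, rfl⟩
  have hUs : U = Complex.slitPlane := by
    rw [hU]
    ext z
    rw [Complex.mem_slitPlane_iff]
    rfl
  have hUo : IsOpen U := by
    rw [hUs]
    exact Complex.isOpen_slitPlane
  have hUc : IsPreconnected U := by
    rw [hUs]
    exact (Complex.starConvex_one_slitPlane.isPathConnected Complex.one_mem_slitPlane).isConnected.isPreconnected
  have hG : ∀ z : ℂ, (0 < z.re ∨ z.im ≠ 0) → DifferentiableAt ℂ (fun s : ℂ => 2 * (c : ℂ) ^ s * Complex.Gamma s) z := by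
    intro z hz
    refine DifferentiableAt.mul ?_ ?_
    · exact (DifferentiableAt.const_cpow differentiableAt_id (Or.inl hcc)).const_mul _
    · refine Complex.differentiableAt_Gamma _ ?_
      intro m hm
      rcases hz with hz | hz
      · have := congrArg Complex.re hm
        simp at this
        have hm0 : (0 : ℝ) ≤ m := Nat.cast_nonneg m
        linarith
      · have := congrArg Complex.im hm
        simp at this
        exact hz this
  have hA2 : DifferentiableOn ℂ (fun z : ℂ => 2 * (c : ℂ) ^ z * Complex.Gamma z * F z) U := by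
    intro z hz
    rw [hU] at hz
    exact ((hG z hz).mul (hF.diff z)).differentiableWithinAt
  obtain ⟨z0, hz0⟩ : ∃ z0 : ℂ, z0 = ((max σ0 2 + 1 : ℝ) : ℂ) := ⟨_, rfl⟩
  have hz0re : z0.re = max σ0 2 + 1 := by rw [hz0, Complex.ofReal_re]
  have hz0U : z0 ∈ U := by
    rw [hU]
    left
    rw [hz0re]
    linarith [le_max_right σ0 2]
  have hev : X0 =ᶠ[𝓝 z0] fun z : ℂ => 2 * (c : ℂ) ^ z * Complex.Gamma z * F z := by
    have h3 : ∀ᶠ z : ℂ in 𝓝 z0, max σ0 2 < z.re :=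
      (Complex.continuous_re.tendsto _).eventually (lt_mem_nhds (by rw [hz0re]; linarith))
    filter_upwards [h3] with z hz
    exact hbig z hz.le
  have hEq := (hd.differentiableOn.analyticOnNhd hUo).eqOn_of_preconnected_of_eventuallyEq
    (hA2.analyticOnNhd hUo) hUc hz0U hev
  have heq : ∀ z : ℂ, (0 < z.re ∨ z.im ≠ 0) → X0 z = 2 * (c : ℂ) ^ z * Complex.Gamma z * F z := by
    intro z hz
    exact hEq (by rw [hU]; exact hz)
  -- in terms of the theory
  obtain ⟨X, hX⟩ : ∃ X : ℂ → ℂ, X = fun z => c0 * X0 (1 / 2 + z) := ⟨_, rfl⟩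
  have hXd : Differentiable ℂ X := by
    rw [hX]
    exact (hd.comp (by fun_prop : Differentiable ℂ fun z : ℂ => 1 / 2 + z)).const_mul _
  obtain ⟨u, hu⟩ : ∃ u : ℂ, u = c0 * 2 * (c : ℂ) ^ (1 / 2 : ℂ) := ⟨_, rfl⟩
  have hcpw : ∀ z : ℂ, (c : ℂ) ^ z ≠ 0 := by
    intro z
    rw [Complex.cpow_def_of_ne_zero hcc]
    exact Complex.exp_ne_zero _
  have hu0 : u ≠ 0 := by rw [hu]; exact mul_ne_zero (mul_ne_zero hc00 two_ne_zero) (hcpw _)
  have heqX : ∀ z : ℂ, (1 / 2 < z.re ∨ z.im ≠ 0) → X z = u * Hg c (((1 : ℕ) : ℝ) / 2) z * F (1 / 2 + z) := by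
    intro z hz
    have e1 : X z = c0 * X0 (1 / 2 + z) := by rw [hX]
    rw [e1, heq _ (by
      rcases hz with h | h
      · left
        have : (1 / 2 + z : ℂ).re = 1 / 2 + z.re := by simp
        rw [this]; linarith
      · right
        have : (1 / 2 + z : ℂ).im = z.im := by simp
        rw [this]; exact h), Complex.cpow_add _ _ hcc, hu]
    unfold Hg
    have e2 : z + ((((1 : ℕ) : ℝ) / 2 : ℝ) : ℂ) = 1 / 2 + z := by push_cast; ring
    rw [e2]
    ring
  -- bounds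
  obtain ⟨-, -, -, h4⟩ := Pool.Agent.Y771.GL.mf 1 N (ps ψ) (al f) hfrm
  obtain ⟨B0, hB0⟩ : ∃ B0 : ℝ, B0 = ∑' n : ℕ, ‖al f n‖ * (n : ℝ) ^ (-(3 / 2 : ℝ)) := ⟨_, rfl⟩
  have hFB : ∀ s : ℂ, 3 / 2 ≤ s.re → ‖F s‖ ≤ max 1 B0 := by
    intro s hs
    rw [ser_eq hfrm hF (by linarith)]
    refine le_trans ?_ (le_max_right _ _)
    rw [hB0]
    exact (sum_of (h4 (3 / 2) (by norm_num)).1 hs).2
  refine ⟨c, u, c0, X0, F, hc00, hpk', hF, ?_, ?_⟩
  · have hXe : (fun z => c0 * X0 (1 / 2 + z)) = X := hX.symm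
    rw [hXe]
    refine ⟨hcp, hu0, hXd, ?_, ?_, ?_, ?_⟩
    · -- symmetry
      intro z
      have e1 : X (-(conj z)) = c0 * X0 (1 - (1 / 2 + conj z)) := by
        rw [hX]
        show c0 * X0 (1 / 2 + -(conj z)) = _
        congr 2
        ring
      have e2 : conj (1 / 2 + conj z) = 1 / 2 + z := by
        rw [map_add, Complex.conj_conj, map_div₀, map_one]
        have : conj (2 : ℂ) = 2 := Complex.conj_ofNat 2
        rw [this]
      rw [e1, hfe, e2, ← mul_assoc, hc0w, ← map_mul]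
      rw [hX]
    · intro z hz
      refine heqX z ?_
      rcases hz with hz | hz
      · exact Or.inr hz.ne'
      · exact Or.inl hz
    · -- vertical strips
      intro a b
      obtain ⟨C1, hC1⟩ := hFE.vert (a + 1 / 2) (b + 1 / 2)
      have hK : IsCompact (Set.Icc a b ×ℂ Set.Icc (-1 : ℝ) 1) := isCompact_Icc.reProdIm isCompact_Icc
      obtain ⟨C2, hC2⟩ := hK.exists_bound_of_continuousOn (f := X) hXd.continuous.continuousOn
      refine ⟨max (‖u‖ * ‖(c : ℂ) ^ (-(1 / 2) : ℂ)‖ * C1) C2, fun z hz1 hz2 => ?_⟩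
      rcases le_or_gt 1 |z.im| with h1 | h1
      · refine le_trans ?_ (le_max_left _ _)
        have him : z.im ≠ 0 := by
          intro h0; rw [h0, abs_zero] at h1; linarith
        rw [heqX z (Or.inr him)]
        have h5 := hC1 (1 / 2 + z) (by simp; linarith) (by simp; linarith) (by simpa using h1)
        have h6 : Hg c (((1 : ℕ) : ℝ) / 2) z = (c : ℂ) ^ (-(1 / 2) : ℂ) * W388.GG 1 N 1 (1 / 2 + z) := by
          unfold Hg W388.GG
          rw [mul_one, ← hc, ← mul_assoc, ← Complex.cpow_add _ _ hcc]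
          congr 1
          · congr 1; ring
          · congr 1
            push_cast
            ring
        rw [h6]
        calc ‖u * ((c : ℂ) ^ (-(1 / 2) : ℂ) * W388.GG 1 N 1 (1 / 2 + z)) * F (1 / 2 + z)‖
            = ‖u‖ * ‖(c : ℂ) ^ (-(1 / 2) : ℂ)‖ * ‖W388.GG 1 N 1 (1 / 2 + z) * F (1 / 2 + z)‖ := by
              rw [norm_mul, norm_mul, norm_mul, norm_mul]; ring
          _ ≤ _ := by gcongr
      · refine le_trans (hC2 z ?_) (le_max_right _ _)
        rw [Complex.mem_reProdIm]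
        have := abs_lt.1 h1
        exact ⟨⟨hz1, hz2⟩, ⟨this.1.le, this.2.le⟩⟩
    · -- growth
      obtain ⟨A, hA⟩ : ∃ A : ℝ, A = 2 + 2 * (max 1 B0 * N) * ((((1 : ℤ) : ℝ) - 1) / 2 + 6) ^ 2 := ⟨_, rfl⟩
      refine ⟨A, fun s h1 h3 => ?_⟩
      have h5 := Pool.Agent.W820.TW.F_growth (k := 1) (N := N) (Q := 1) (B := max 1 B0) le_rfl hN1 le_rfl
        (le_max_left _ _) hFE hFB (A := A) (le_of_eq hA.symm) s h1 h3
      rwa [one_mul] at h5
  · intro s hs
    rw [← hc]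
    refine heq s ?_
    rcases hs with h | h
    · left; linarith
    · right; exact h

end Pool.Agent.X244.AZ
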