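import Pool.Agent.X244.AZ.E1
import Pool.Agent.Y24.GL.H7
import Pool.Agent.Y24.GL.H6
import Pool.Agent.Y24.GL.H5

set_option autoImplicit false

/-!
L-functions of forms with complex coefficients: growth, and the density theorem for positive and negative
imaginary parts.
-/

namespace Pool.Agent.X244.AZ

open Complex Filter Topology
open Pool.Agent.Y671.GL
open Pool.Agent.Y24.GL (LFn Mol)
open scoped ComplexConjugate

theorem GG_conj (k : ℤ) (N Q : ℝ) (h : 0 ≤ Real.sqrt N * Q) (s : ℂ) :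
    W388.GG k N Q (conj s) = conj (W388.GG k N Q s) := by
  unfold W388.GG
  have h0 : 0 ≤ Real.sqrt N * Q / (2 * Real.pi) := div_nonneg h (by positivity)
  rw [map_mul, ← Complex.Gamma_conj]
  congr 1
  · have h1 := Complex.cpow_conj (((Real.sqrt N * Q / (2 * Real.pi) : ℝ)) : ℂ) s (by
      rw [Complex.arg_ofReal_of_nonneg h0]
      exact Real.pi_ne_zero.symm)
    rw [Complex.conj_ofReal] at h1
    exact h1
  · congr 1
    have h2c : conj (2 : ℂ) = 2 := Complex.conj_ofNat 2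
    rw [map_add, map_div₀, map_sub, map_one, map_intCast, h2c]

/-- the conjugate L-function has the same functional equation data -/
theorem fe2_conj {k : ℤ} {N Q : ℝ} (hQ : 0 ≤ Real.sqrt N * Q) {F : ℂ → ℂ} (h : W388.FE2 k N Q F) :
    W388.FE2 k N Q (fun s => conj (F (conj s))) := by
  refine ⟨?_, ?_, ?_⟩
  · intro z
    have := (h.diff (conj z)).conj_conj
    rwa [Complex.conj_conj] at this
  · obtain ⟨w, hw, hfe⟩ := h.fe
    refine ⟨conj w, by rw [Complex.norm_conj]; exact hw, fun s hs => ?_⟩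
    have h1 := hfe (conj s) (by simpa using hs)
    have h2 := congrArg conj h1
    rw [map_mul, GG_conj k N Q hQ, Complex.conj_conj, map_mul, Complex.conj_conj] at h2
    rw [h2]
    have e1 : (1 - conj s : ℂ) = conj (1 - s) := by rw [map_sub, map_one]
    rw [e1, GG_conj k N Q hQ, map_mul, Complex.conj_conj, Complex.conj_conj, Complex.conj_conj, Complex.conj_conj]
  · intro a b
    obtain ⟨C, hC⟩ := h.vert a b
    refine ⟨C, fun s h1 h2 h3 => ?_⟩
    have h4 := hC (conj s) (by simpa using h1) (by simpa using h2) (by simpa using h3)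
    rw [GG_conj k N Q hQ] at h4
    rw [norm_mul, Complex.norm_conj]
    rwa [norm_mul, Complex.norm_conj] at h4

variable {N : ℕ} [NeZero N] {k : ℕ} {ps lam : ℕ → ℂ} {Z : ℂ → ℂ}

/-- polynomial growth in both half planes -/
theorem gro_both (hk : 1 ≤ k) (hFE : W388.FE2 k N 1 Z) (hf : Frm k N ps lam) (hL : IsL lam Z) :
    ∃ A : ℝ, 1 ≤ A ∧ ∀ s : ℂ, 1 / 16 ≤ s.re → 1 ≤ |s.im| → ‖Z s‖ ≤ A * |s.im| ^ A := by
  obtain ⟨A1, h1⟩ := Pool.Agent.Y24.GL.gro_Z hk hFE hf hL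
  obtain ⟨A2, h2⟩ := Pool.Agent.Y24.GL.gro_Z hk (fe2_conj (by positivity) hFE) (frm_conj hf) (isL_conj hL)
  obtain ⟨A, hA⟩ : ∃ A : ℝ, A = max 1 (max A1 A2) := ⟨_, rfl⟩
  have hA1 : A1 ≤ A := by rw [hA]; exact (le_max_left _ _).trans (le_max_right _ _)
  have hA2 : A2 ≤ A := by rw [hA]; exact (le_max_right _ _).trans (le_max_right _ _)
  have hA0 : 1 ≤ A := by rw [hA]; exact le_max_left _ _
  have hmono : ∀ {B t : ℝ}, B ≤ A → 1 ≤ t → B * t ^ B ≤ A * t ^ A := by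
    intro B t hB ht
    have h3 : t ^ B ≤ t ^ A := Real.rpow_le_rpow_of_exponent_le ht hB
    have h4 : 0 ≤ t ^ B := by positivity
    calc B * t ^ B ≤ A * t ^ B := mul_le_mul_of_nonneg_right hB h4
      _ ≤ A * t ^ A := mul_le_mul_of_nonneg_left h3 (by linarith)
  refine ⟨A, hA0, fun s hs hi => ?_⟩
  rcases le_or_gt 0 s.im with h0 | h0
  · rw [abs_of_nonneg h0] at hi ⊢
    exact (h1 s hs hi).trans (hmono hA1 hi)
  · rw [abs_of_neg h0] at hi ⊢
    have h3 := h2 (conj s) (by simpa using hs) (by simpa using hi)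
    simp only [Complex.conj_conj, Complex.norm_conj, Complex.conj_im] at h3
    exact h3.trans (hmono hA2 hi)

/-- the L-function, for the density theorem -/
theorem lfn_cplx (hk : 1 ≤ k) (hFE : W388.FE2 k N 1 Z) (hf : Frm k N ps lam) (hL : IsL lam Z) : LFn Z where
  diff := hL.diff
  low := by
    obtain ⟨c, K, hc, -, h⟩ := Pool.Agent.Y24.GL.rgt_of hf hL (ε := 1) one_pos
    exact ⟨c, hc, fun z hz => (h z (by linarith)).1⟩
  ne := fun z hz h0 => by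
    obtain ⟨c, K, hc, -, h⟩ := Pool.Agent.Y24.GL.rgt_of hf hL (ε := z.re - 1) (by linarith)
    have := (h z (by linarith)).1
    rw [h0, norm_zero] at this
    linarith
  gro := fun A => by
    obtain ⟨a, ha1, ha⟩ := gro_both hk hFE hf hL
    have hK : IsCompact (Set.Icc (1 / 4) A ×ℂ Set.Icc (-1) 1) := isCompact_Icc.reProdIm isCompact_Icc
    obtain ⟨M, hM⟩ := hK.exists_bound_of_continuousOn hL.diff.continuous.continuousOn
    refine ⟨a + |M| + 1, ⌈a⌉₊, by positivity, fun z h1 h2 => ?_⟩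
    have hM0 := abs_nonneg M
    rcases le_or_gt 1 |z.im| with h3 | h3
    · have h4 := ha z (by linarith) h3
      have h5 : |z.im| ^ a ≤ (1 + |z.im|) ^ ⌈a⌉₊ := by
        calc |z.im| ^ a ≤ |z.im| ^ (⌈a⌉₊ : ℝ) := Real.rpow_le_rpow_of_exponent_le h3 (Nat.le_ceil _)
          _ = |z.im| ^ ⌈a⌉₊ := Real.rpow_natCast _ _
          _ ≤ _ := by gcongr; linarith
      calc ‖Z z‖ ≤ a * |z.im| ^ a := h4
        _ ≤ (a + |M| + 1) * (1 + |z.im|) ^ ⌈a⌉₊ := by
            gcongr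
            linarith
    · have h4 := abs_lt.1 h3
      have h5 := hM z ⟨⟨h1, h2⟩, ⟨h4.1.le, h4.2.le⟩⟩
      have h6 : (1 : ℝ) ≤ (1 + |z.im|) ^ ⌈a⌉₊ := one_le_pow₀ (by linarith [abs_nonneg z.im])
      have h7 : ‖Z z‖ ≤ a + |M| + 1 := by
        have := le_abs_self M
        linarith
      calc ‖Z z‖ ≤ (a + |M| + 1) * 1 := by rw [mul_one]; exact h7
        _ ≤ _ := by gcongr

/-- the zeros with real part at least `σ` and imaginary part in `[-T, T]` -/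
def ZB (F : ℂ → ℂ) (σ T : ℝ) : Set ℂ := {ρ : ℂ | F ρ = 0 ∧ σ ≤ ρ.re ∧ |ρ.im| ≤ T}

/-- the density theorem for a function -/
structure DN (c : ℝ) (F : ℂ → ℂ) : Prop where
  diff : Differentiable ℂ F
  ne : ∀ z : ℂ, 1 < z.re → F z ≠ 0
  fin : ∀ σ T : ℝ, (ZB F σ T).Finite
  dens : ∃ C : ℝ, 0 < C ∧ ∀ σ T : ℝ, 1 / 2 ≤ σ → 2 ≤ T →
    ∑ᶠ ρ ∈ ZB F σ T, (analyticOrderNatAt F ρ : ℝ) ≤ C * T ^ (1 - c * (σ - 1 / 2)) * Real.log T

theorem zb_fin {F : ℂ → ℂ} (hF : Differentiable ℂ F) (hne : ∀ z : ℂ, 1 < z.re → F z ≠ 0) (σ T : ℝ) :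
    (ZB F σ T).Finite := by
  have hK : IsCompact (Set.Icc σ 1 ×ℂ Set.Icc (-T) T) := isCompact_Icc.reProdIm isCompact_Icc
  by_contra hinf
  have hsub : ZB F σ T ⊆ Set.Icc σ 1 ×ℂ Set.Icc (-T) T := by
    intro ρ hρ
    obtain ⟨h1, h2, h3⟩ := hρ
    have h4 : ρ.re ≤ 1 := by
      by_contra hcon
      push Not at hcon
      exact hne ρ hcon h1
    exact ⟨⟨h2, h4⟩, abs_le.1 h3⟩
  obtain ⟨z₀, _, hz₀⟩ := Set.Infinite.exists_accPt_of_subset_isCompact hinf hK hsub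
  have han : AnalyticOnNhd ℂ F Set.univ := fun z _ => hF.analyticAt z
  have hfr : ∃ᶠ z in 𝓝[≠] z₀, F z = 0 := by
    have h1 := accPt_iff_frequently_nhdsNE.mp hz₀
    exact h1.mono fun z hz => hz.1
  have h2 := han.eqOn_zero_of_preconnected_of_frequently_eq_zero isPreconnected_univ
    (Set.mem_univ z₀) hfr (Set.mem_univ (2:ℂ))
  simp only [Pi.zero_apply] at h2
  exact hne 2 (by norm_num) h2

/-- a sum over a set of zeros may be restricted to the zeros of a factor -/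
theorem sum_sub {F : ℂ → ℂ} {A B : Set ℂ} (hA : A.Finite) (hB : B.Finite) (hBA : B ⊆ A)
    (h0 : ∀ ρ ∈ A, ρ ∉ B → F ρ ≠ 0) (hF : Differentiable ℂ F) :
    ∑ᶠ ρ ∈ A, (analyticOrderNatAt F ρ : ℝ) = ∑ᶠ ρ ∈ B, (analyticOrderNatAt F ρ : ℝ) := by
  rw [finsum_mem_eq_finite_toFinset_sum _ hA, finsum_mem_eq_finite_toFinset_sum _ hB]
  symm
  refine Finset.sum_subset (by simpa using hBA) fun ρ hρ hρ' => ?_
  rw [Set.Finite.mem_toFinset] at hρ hρ'
  have h1 := h0 ρ hρ hρ'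
  have h2 : analyticOrderAt F ρ = 0 := (hF.analyticAt ρ).analyticOrderAt_eq_zero.2 h1
  unfold analyticOrderNatAt
  rw [h2]
  simp

theorem ord_ne_top {F : ℂ → ℂ} (hF : Differentiable ℂ F) (hne : ∃ z, F z ≠ 0) (ρ : ℂ) :
    analyticOrderAt F ρ ≠ ⊤ := by
  intro h
  obtain ⟨z, hz⟩ := hne
  have han : AnalyticOnNhd ℂ F Set.univ := fun z _ => hF.analyticAt z
  rw [analyticOrderAt_eq_top] at h
  have h2 := han.eqOn_zero_of_preconnected_of_eventuallyEq_zero isPreconnected_univ (Set.mem_univ ρ) h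
    (Set.mem_univ z)
  exact hz h2

theorem ord_mul {F G : ℂ → ℂ} (hF : Differentiable ℂ F) (hG : Differentiable ℂ G) (h1 : ∃ z, F z ≠ 0)
    (h2 : ∃ z, G z ≠ 0) (ρ : ℂ) : analyticOrderNatAt (fun z => F z * G z) ρ =
      analyticOrderNatAt F ρ + analyticOrderNatAt G ρ := by
  have h3 : (fun z => F z * G z) = F * G := rfl
  unfold analyticOrderNatAt
  rw [h3, analyticOrderAt_mul (hF.analyticAt ρ) (hG.analyticAt ρ), ENat.toNat_add (ord_ne_top hF h1 ρ)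
    (ord_ne_top hG h2 ρ)]

theorem dn_one {c : ℝ} : DN c (fun _ => 1) := by
  have hemp : ∀ σ T : ℝ, ZB (fun _ : ℂ => (1 : ℂ)) σ T = ∅ := by
    intro σ T
    rw [Set.eq_empty_iff_forall_notMem]
    rintro ρ ⟨h, -⟩
    exact one_ne_zero h
  refine ⟨differentiable_const _, fun _ _ => one_ne_zero, fun σ T => by rw [hemp]; exact Set.finite_empty,
    1, one_pos, fun σ T _ hT => ?_⟩
  rw [hemp]
  have hlog : 0 ≤ Real.log T := Real.log_nonneg (by linarith)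
  have hpow : 0 ≤ T ^ (1 - c * (σ - 1 / 2)) := Real.rpow_nonneg (by linarith) _
  simp only [Set.mem_empty_iff_false, finsum_false, finsum_zero]
  positivity

theorem dn_mul {c : ℝ} {F G : ℂ → ℂ} (hF : DN c F) (hG : DN c G) : DN c (fun z => F z * G z) := by
  have hd : Differentiable ℂ (fun z => F z * G z) := hF.diff.mul hG.diff
  have hne : ∀ z : ℂ, 1 < z.re → F z * G z ≠ 0 := fun z hz => mul_ne_zero (hF.ne z hz) (hG.ne z hz)
  have hfin := zb_fin hd hne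
  refine ⟨hd, hne, hfin, ?_⟩
  obtain ⟨C1, hC1, h1⟩ := hF.dens
  obtain ⟨C2, hC2, h2⟩ := hG.dens
  refine ⟨C1 + C2, by positivity, fun σ T hσ hT => ?_⟩
  have e1 : ∑ᶠ ρ ∈ ZB (fun z => F z * G z) σ T, (analyticOrderNatAt (fun z => F z * G z) ρ : ℝ) =
      ∑ᶠ ρ ∈ ZB (fun z => F z * G z) σ T, (analyticOrderNatAt F ρ : ℝ) +
      ∑ᶠ ρ ∈ ZB (fun z => F z * G z) σ T, (analyticOrderNatAt G ρ : ℝ) := by
    rw [finsum_mem_eq_finite_toFinset_sum _ (hfin σ T), finsum_mem_eq_finite_toFinset_sum _ (hfin σ T),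
      finsum_mem_eq_finite_toFinset_sum _ (hfin σ T), ← Finset.sum_add_distrib]
    refine Finset.sum_congr rfl fun ρ _ => ?_
    rw [ord_mul hF.diff hG.diff ⟨2, hF.ne 2 (by norm_num)⟩ ⟨2, hG.ne 2 (by norm_num)⟩]
    push_cast
    rfl
  have e2 : ∑ᶠ ρ ∈ ZB (fun z => F z * G z) σ T, (analyticOrderNatAt F ρ : ℝ) =
      ∑ᶠ ρ ∈ ZB F σ T, (analyticOrderNatAt F ρ : ℝ) := by
    refine sum_sub (hfin σ T) (hF.fin σ T) ?_ ?_ hF.diff
    · rintro ρ ⟨a, b, c⟩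
      exact ⟨by simp only; rw [a, zero_mul], b, c⟩
    · rintro ρ ⟨a, b, c⟩ hn h0
      exact hn ⟨h0, b, c⟩
  have e3 : ∑ᶠ ρ ∈ ZB (fun z => F z * G z) σ T, (analyticOrderNatAt G ρ : ℝ) =
      ∑ᶠ ρ ∈ ZB G σ T, (analyticOrderNatAt G ρ : ℝ) := by
    refine sum_sub (hfin σ T) (hG.fin σ T) ?_ ?_ hG.diff
    · rintro ρ ⟨a, b, c⟩
      exact ⟨by simp only; rw [a, mul_zero], b, c⟩
    · rintro ρ ⟨a, b, c⟩ hn h0
      exact hn ⟨h0, b, c⟩
  rw [e1, e2, e3]
  have := h1 σ T hσ hT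
  have := h2 σ T hσ hT
  calc _ ≤ C1 * T ^ (1 - c * (σ - 1 / 2)) * Real.log T + C2 * T ^ (1 - c * (σ - 1 / 2)) * Real.log T := by
        linarith
    _ = _ := by ring

theorem analyticAt_cc {f : ℂ → ℂ} {s : ℂ} (h : AnalyticAt ℂ f (conj s)) :
    AnalyticAt ℂ (fun z => conj (f (conj z))) s := by
  rw [analyticAt_iff_eventually_differentiableAt] at h ⊢
  have h2 := (Complex.continuous_conj.tendsto s).eventually h
  filter_upwards [h2] with z hz
  have := hz.conj_conj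
  rwa [Complex.conj_conj] at this

theorem ordAt_conj {f : ℂ → ℂ} {s : ℂ} (h : AnalyticAt ℂ f (conj s)) :
    analyticOrderAt (fun z => conj (f (conj z))) s = analyticOrderAt f (conj s) := by
  rcases eq_or_ne (analyticOrderAt f (conj s)) ⊤ with h0 | h0
  · rw [h0, analyticOrderAt_eq_top]
    rw [analyticOrderAt_eq_top] at h0
    have h2 := (Complex.continuous_conj.tendsto s).eventually h0
    filter_upwards [h2] with z hz
    rw [hz, map_zero]
  · obtain ⟨n, hn⟩ := ENat.ne_top_iff_exists.mp h0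
    rw [← hn]
    obtain ⟨g, hg, hg0, hfg⟩ := (h.analyticOrderAt_eq_natCast).mp hn.symm
    rw [(analyticAt_cc h).analyticOrderAt_eq_natCast]
    refine ⟨fun z => conj (g (conj z)), analyticAt_cc hg, ?_, ?_⟩
    · simpa using hg0
    · have h2 := (Complex.continuous_conj.tendsto s).eventually hfg
      filter_upwards [h2] with z hz
      rw [hz]
      simp only [smul_eq_mul, map_mul, map_pow, map_sub, Complex.conj_conj]

/-- the order of the conjugate function -/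
theorem ord_conj {F : ℂ → ℂ} (hF : Differentiable ℂ F) (ρ : ℂ) :
    analyticOrderNatAt (fun s => conj (F (conj s))) (conj ρ) = analyticOrderNatAt F ρ := by
  unfold analyticOrderNatAt
  rw [ordAt_conj (hF.analyticAt _), Complex.conj_conj]

/-- the density theorem from bounds for the zeros in the two half planes -/
theorem dn_halves {F : ℂ → ℂ} (hd : Differentiable ℂ F) (hne : ∀ z : ℂ, 1 < z.re → F z ≠ 0) {c C1 C2 : ℝ}
    (hc : c < 1) (hC1 : 0 < C1) (hC2 : 0 < C2)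
    (h1 : ∀ σ T : ℝ, 1 / 2 ≤ σ → σ ≤ 1 → 2 ≤ T → ∀ S : Finset ℂ,
      (∀ ρ ∈ S, F ρ = 0 ∧ σ ≤ ρ.re ∧ 0 < ρ.im ∧ ρ.im ≤ T) →
      ∑ ρ ∈ S, (analyticOrderNatAt F ρ : ℝ) ≤ C1 * T ^ (1 - c * (σ - 1 / 2)) * Real.log T)
    (h2 : ∀ σ T : ℝ, 1 / 2 ≤ σ → σ ≤ 1 → 2 ≤ T → ∀ S : Finset ℂ,
      (∀ ρ ∈ S, F ρ = 0 ∧ σ ≤ ρ.re ∧ ρ.im < 0 ∧ -ρ.im ≤ T) →
      ∑ ρ ∈ S, (analyticOrderNatAt F ρ : ℝ) ≤ C2 * T ^ (1 - c * (σ - 1 / 2)) * Real.log T) : DN c F := by
  have hfin := zb_fin hd hne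
  obtain ⟨M, hM⟩ : ∃ M : ℝ, M = ∑ᶠ ρ ∈ ZB F (1 / 2) 0, (analyticOrderNatAt F ρ : ℝ) := ⟨_, rfl⟩
  have hM0 : 0 ≤ M := by
    rw [hM, finsum_mem_eq_finite_toFinset_sum _ (hfin _ _)]
    positivity
  refine ⟨hd, hne, hfin, C1 + C2 + 2 * M, by positivity, fun σ T hσ hT => ?_⟩
  have hlog : 1 / 2 ≤ Real.log T := by
    have h3 : Real.log 2 ≤ Real.log T := Real.log_le_log (by norm_num) hT
    have := Real.log_two_gt_d9
    linarith
  rcases le_or_gt σ 1 with hσ1 | hσ1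
  · have hpow : 1 ≤ T ^ (1 - c * (σ - 1 / 2)) := by
      apply Real.one_le_rpow (by linarith)
      nlinarith
    rw [finsum_mem_eq_finite_toFinset_sum _ (hfin _ _)] at hM
    rw [finsum_mem_eq_finite_toFinset_sum _ (hfin _ _)]
    have k1 := h1 σ T hσ hσ1 hT ((hfin σ T).toFinset.filter fun ρ => 0 < ρ.im) (by
      intro ρ hρ
      rw [Finset.mem_filter, Set.Finite.mem_toFinset] at hρ
      obtain ⟨⟨a, b, d⟩, e⟩ := hρ
      exact ⟨a, b, e, (le_abs_self _).trans d⟩)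
    have k2 := h2 σ T hσ hσ1 hT ((hfin σ T).toFinset.filter fun ρ => ρ.im < 0) (by
      intro ρ hρ
      rw [Finset.mem_filter, Set.Finite.mem_toFinset] at hρ
      obtain ⟨⟨a, b, d⟩, e⟩ := hρ
      exact ⟨a, b, e, (neg_le_abs _).trans d⟩)
    have k3 : ∑ ρ ∈ ((hfin σ T).toFinset.filter fun ρ => ρ.im = 0), (analyticOrderNatAt F ρ : ℝ) ≤ M := by
      rw [hM]
      refine Finset.sum_le_sum_of_subset_of_nonneg ?_ fun _ _ _ => Nat.cast_nonneg _
      intro ρ hρ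
      rw [Finset.mem_filter, Set.Finite.mem_toFinset] at hρ
      obtain ⟨⟨a, b, d⟩, e⟩ := hρ
      rw [Set.Finite.mem_toFinset]
      exact ⟨a, hσ.trans b, by rw [e, abs_zero]⟩
    have k4 : ∑ ρ ∈ (hfin σ T).toFinset, (analyticOrderNatAt F ρ : ℝ) ≤
        ∑ ρ ∈ ((hfin σ T).toFinset.filter fun ρ => 0 < ρ.im), (analyticOrderNatAt F ρ : ℝ) +
        ∑ ρ ∈ ((hfin σ T).toFinset.filter fun ρ => ρ.im < 0), (analyticOrderNatAt F ρ : ℝ) +
        ∑ ρ ∈ ((hfin σ T).toFinset.filter fun ρ => ρ.im = 0), (analyticOrderNatAt F ρ : ℝ) := by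
      simp only [Finset.sum_filter]
      rw [← Finset.sum_add_distrib, ← Finset.sum_add_distrib]
      refine Finset.sum_le_sum fun ρ _ => ?_
      have h0 : (0 : ℝ) ≤ (analyticOrderNatAt F ρ : ℝ) := Nat.cast_nonneg _
      rcases lt_trichotomy ρ.im 0 with h | h | h
      · rw [if_neg (by linarith), if_pos h, if_neg h.ne]
        linarith
      · rw [if_neg (by linarith), if_neg (by linarith), if_pos h]
        linarith
      · rw [if_pos h, if_neg (by linarith), if_neg h.ne']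
        linarith
    have k5 : M ≤ 2 * M * T ^ (1 - c * (σ - 1 / 2)) * Real.log T := by
      have : 1 / 2 ≤ T ^ (1 - c * (σ - 1 / 2)) * Real.log T := by nlinarith
      calc M = 2 * M * (1 / 2) := by ring
        _ ≤ 2 * M * (T ^ (1 - c * (σ - 1 / 2)) * Real.log T) := by gcongr
        _ = _ := by ring
    calc _ ≤ C1 * T ^ (1 - c * (σ - 1 / 2)) * Real.log T + C2 * T ^ (1 - c * (σ - 1 / 2)) * Real.log T +
          2 * M * T ^ (1 - c * (σ - 1 / 2)) * Real.log T := by linarith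
      _ = _ := by ring
  · have hemp : ZB F σ T = ∅ := by
      rw [Set.eq_empty_iff_forall_notMem]
      rintro ρ ⟨a, b, -⟩
      exact hne ρ (by linarith) a
    rw [hemp]
    have hpow : 0 ≤ T ^ (1 - c * (σ - 1 / 2)) := Real.rpow_nonneg (by linarith) _
    simp only [Set.mem_empty_iff_false, finsum_false, finsum_zero]
    positivity

/-- a bound for a finite sum from a bound for the sum over all zeros -/
theorem sum_le_of {F : ℂ → ℂ} {A : Set ℂ} {B : ℝ} (h : A.Finite ∧ ∑ᶠ ρ ∈ A, (analyticOrderNatAt F ρ : ℝ) ≤ B)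
    {S : Finset ℂ} (hS : ∀ ρ ∈ S, ρ ∈ A) : ∑ ρ ∈ S, (analyticOrderNatAt F ρ : ℝ) ≤ B := by
  obtain ⟨h1, h2⟩ := h
  rw [finsum_mem_eq_finite_toFinset_sum _ h1] at h2
  refine le_trans ?_ h2
  refine Finset.sum_le_sum_of_subset_of_nonneg ?_ fun _ _ _ => Nat.cast_nonneg _
  intro ρ hρ
  rw [Set.Finite.mem_toFinset]
  exact hS ρ hρ

/-- bounds for the conjugate function and the lower half plane -/
theorem sum_conj {F : ℂ → ℂ} (hd : Differentiable ℂ F) {B : ℝ} {σ T : ℝ}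
    (h : ∀ S : Finset ℂ, (∀ ρ ∈ S, conj (F (conj ρ)) = 0 ∧ σ ≤ ρ.re ∧ 0 < ρ.im ∧ ρ.im ≤ T) →
      ∑ ρ ∈ S, (analyticOrderNatAt (fun s => conj (F (conj s))) ρ : ℝ) ≤ B)
    {S : Finset ℂ} (hS : ∀ ρ ∈ S, F ρ = 0 ∧ σ ≤ ρ.re ∧ ρ.im < 0 ∧ -ρ.im ≤ T) :
    ∑ ρ ∈ S, (analyticOrderNatAt F ρ : ℝ) ≤ B := by
  classical
  have e1 : ∑ ρ ∈ S, (analyticOrderNatAt F ρ : ℝ) =
      ∑ ρ ∈ S.image conj, (analyticOrderNatAt (fun s => conj (F (conj s))) ρ : ℝ) := by
    rw [Finset.sum_image fun a _ b _ h => (starRingEnd ℂ).injective h]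
    refine Finset.sum_congr rfl fun ρ _ => ?_
    rw [ord_conj hd]
  rw [e1]
  refine h _ fun ρ hρ => ?_
  obtain ⟨w, hw, rfl⟩ := Finset.mem_image.1 hρ
  obtain ⟨a, b, d, e⟩ := hS w hw
  refine ⟨?_, by simpa using b, by simpa using d, ?_⟩
  · rw [Complex.conj_conj, a, map_zero]
  · rw [Complex.conj_im]
    exact e

/-- **Density for a form.** -/
theorem dn_form (hk : 1 ≤ k) (hFE : W388.FE2 k N 1 Z) (hf : Frm k N ps lam) (hL : IsL lam Z) {c : ℝ}
    (hc : c < 1) : DN c Z := by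
  have hl1 := lfn_cplx hk hFE hf hL
  have hl2 := lfn_cplx hk (fe2_conj (by positivity) hFE) (frm_conj hf) (isL_conj hL)
  obtain ⟨C1, hC1, h1⟩ := Pool.Agent.Y24.GL.density hl1
    (fun κ h1 h2 => Pool.Agent.Y24.GL.mol hf hL (by linarith) h2.le) hc
  obtain ⟨C2, hC2, h2⟩ := Pool.Agent.Y24.GL.density hl2
    (fun κ h1 h2 => Pool.Agent.Y24.GL.mol (frm_conj hf) (isL_conj hL) (by linarith) h2.le) hc
  refine dn_halves hl1.diff hl1.ne hc hC1 hC2 (fun σ T hσ hσ1 hT S hS => ?_) (fun σ T hσ hσ1 hT S hS => ?_)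
  · exact sum_le_of (h1 σ T hσ hσ1 hT) fun ρ hρ => hS ρ hρ
  · exact sum_conj hl1.diff (fun S' hS' => sum_le_of (h2 σ T hσ hσ1 hT) fun ρ hρ => hS' ρ hρ) hS

end Pool.Agent.X244.AZ
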