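import Pool.Agent.X244.AZ.L1
import Pool.Agent.Y693.GL.Gy
import Pool.Agent.Y275.GL.HHT
import Pool.Agent.Y275.GL.Had1
import Pool.Agent.Y412.GL.HSZ
import Pool.Agent.Y423.GL.TotD
import Pool.Agent.Y67.GL.TOTH
import Pool.Agent.Y771.NF.Cnt
import Pool.Agent.TH839.UH.Fin
import Pool.Agent.W169.HF.Small

set_option autoImplicit false

/-!
Products of completed L-functions: derivatives and heat flow.
-/

namespace Pool.Agent.X244.AZ

open Filter Topology Complex MeasureTheory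
open Pool.Agent.Y671.GL
open Pool.Agent.Y671.LD (bad badH)
open Pool.Agent.W169.HF (heat Slow)
open Pool.Agent.W355.UN (Pk UL acond cser)
open Pool.Agent.Y693.GL (GY gy_mul gy_one)
open scoped ComplexConjugate

section tr

variable {X Λ : ℂ → ℂ} {v a : ℂ}

theorem iter_tr2 (h : ∀ z : ℂ, X z = v * Λ (a + z)) (n : ℕ) (z : ℂ) :
    iteratedDeriv n X z = v * iteratedDeriv n Λ (a + z) := by
  have h0 : X = fun z => v * Λ (a + z) := funext h
  rw [h0, iteratedDeriv_const_mul_field]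
  congr 1
  have := congrFun (iteratedDeriv_comp_const_add n Λ a) z
  exact this

theorem heat_tr2 (h : ∀ z : ℂ, X z = v * Λ (a + z)) (t : ℝ) (z : ℂ) :
    heat t X z = v * heat t Λ (a + z) := by
  unfold heat
  rw [mul_left_comm, ← MeasureTheory.integral_const_mul v]
  congr 1
  refine MeasureTheory.integral_congr_ae (Filter.Eventually.of_forall fun y => ?_)
  show _ * X _ = v * (_ * Λ _)
  rw [h]
  have e : (a + (z + ((2 * Real.sqrt t * y : ℝ) : ℂ))) = a + z + ((2 * Real.sqrt t * y : ℝ) : ℂ) := by ring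
  rw [e]
  ring

end tr

/-- bounds for the analytic conductor -/
structure CB (cn : ℝ → ℝ) (D E : ℝ) : Prop where
  E0 : 0 ≤ E
  one : ∀ y : ℝ, 1 ≤ cn y
  up : ∀ y : ℝ, Real.log (cn y) ≤ D + E * Real.log (1 + |y|)
  low : ∀ y : ℝ, 1 ≤ y → y ≤ cn y

theorem cb_mul {c1 c2 : ℝ → ℝ} {D1 E1 D2 E2 : ℝ} (h1 : CB c1 D1 E1) (h2 : CB c2 D2 E2) :
    CB (fun y => c1 y * c2 y) (D1 + D2) (E1 + E2) := by
  refine ⟨add_nonneg h1.E0 h2.E0, fun y => ?_, fun y => ?_, fun y hy => ?_⟩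
  · exact one_le_mul_of_one_le_of_one_le (h1.one y) (h2.one y)
  · have g1 := h1.one y
    have g2 := h2.one y
    rw [Real.log_mul (by linarith) (by linarith)]
    have := h1.up y
    have := h2.up y
    linarith
  · have g1 := h1.low y hy
    have g2 := h2.one y
    nlinarith

theorem cb_acond {N : ℕ} (hN : 1 ≤ N) : CB (acond N [0, 1]) (Real.log (2 * N)) 2 := by
  have hN1 : (1 : ℝ) ≤ N := by exact_mod_cast hN
  have e : ∀ y : ℝ, acond N [0, 1] y = N * ((1 + |y|) * (1 + ‖(y : ℂ) * I + 1‖)) := by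
    intro y
    unfold acond
    simp only [List.map_cons, List.map_nil, List.prod_cons, List.prod_nil, mul_one, add_zero]
    have : ‖(y : ℂ) * I‖ = |y| := by simp
    rw [this]
  have hup : ∀ y : ℝ, 1 + ‖(y : ℂ) * I + 1‖ ≤ 2 * (1 + |y|) := by
    intro y
    have h1 : ‖(y : ℂ) * I + 1‖ ≤ ‖(y : ℂ) * I‖ + ‖(1 : ℂ)‖ := norm_add_le _ _
    have h2 : ‖(y : ℂ) * I‖ = |y| := by simp
    rw [h2, norm_one] at h1
    linarith [abs_nonneg y]
  have hlo : ∀ y : ℝ, 1 ≤ 1 + ‖(y : ℂ) * I + 1‖ := fun y => by linarith [norm_nonneg ((y : ℂ) * I + 1)]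
  refine ⟨by norm_num, fun y => ?_, fun y => ?_, fun y hy => ?_⟩
  · rw [e]
    have h1 : 1 ≤ (1 + |y|) * (1 + ‖(y : ℂ) * I + 1‖) :=
      one_le_mul_of_one_le_of_one_le (by linarith [abs_nonneg y]) (hlo y)
    exact one_le_mul_of_one_le_of_one_le hN1 h1
  · have hy := abs_nonneg y
    have h0 := hlo y
    have h2 : acond N [0, 1] y ≤ 2 * N * (1 + |y|) ^ 2 := by
      rw [e]
      have := hup y
      calc (N : ℝ) * ((1 + |y|) * (1 + ‖(y : ℂ) * I + 1‖)) ≤ N * ((1 + |y|) * (2 * (1 + |y|))) := by gcongr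
        _ = _ := by ring
    have h3 : 0 < acond N [0, 1] y := by
      rw [e]
      positivity
    refine (Real.log_le_log h3 h2).trans ?_
    rw [Real.log_mul (by positivity) (by positivity), Real.log_pow]
    push_cast
    exact le_rfl
  · rw [e]
    have h1 : y ≤ 1 + |y| := by linarith [le_abs_self y]
    have h2 := hlo y
    have h3 : 1 ≤ (N : ℝ) * (1 + ‖(y : ℂ) * I + 1‖) := one_le_mul_of_one_le_of_one_le hN1 h2
    calc y ≤ (1 + |y|) * 1 := by linarith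
      _ ≤ (1 + |y|) * ((N : ℝ) * (1 + ‖(y : ℂ) * I + 1‖)) := by gcongr
      _ = _ := by ring

section lowhuge

variable {d : ℕ} {N : ℝ} {cn : ℝ → ℝ} {G Λ X : ℂ → ℂ} {v : ℂ} {D E : ℝ}

/-- high derivatives -/
theorem low_of_pk (hv : v ≠ 0) (h : Pk d N cn G Λ) (hcn : CB cn D E) (hX : ∀ z, X z = v * Λ (1 / 2 + z)) :
    LowX X := by
  obtain ⟨μ, L, ul, ec, -⟩ := h
  obtain ⟨C, hC, hmain⟩ := Pool.Agent.TH839.UH.main_all (ul.hB 1)
  have hE := hcn.E0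
  have hlog2 : 0 < Real.log 2 := Real.log_pos (by norm_num)
  obtain ⟨D', hD'⟩ : ∃ D' : ℝ, D' = d + D + E * Real.log 2 := ⟨_, rfl⟩
  obtain ⟨K, hK⟩ : ∃ K : ℝ, K = 2 * (E + 1) * C := ⟨_, rfl⟩
  have hK0 : 0 < K := by rw [hK]; positivity
  refine ⟨K, hK0, ⌈2 * C * D'⌉₊, ?_⟩
  intro n hn s hs hbad
  have hn' : 2 * C * D' ≤ n := (Nat.le_ceil _).trans (by exact_mod_cast hn)
  obtain ⟨hb1, hb2⟩ := hbad
  have h1 := hmain d N 0 μ _ _ ul zero_le_one 0 n (1 / 2 + s) le_rfl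
  have him : (1 / 2 + s : ℂ).im = s.im := by simp
  have hre : (1 / 2 + s : ℂ).re = 1 / 2 + s.re := by simp
  have hheat : heat 0 Λ = Λ := Pool.Agent.W169.HF.heat_zero_time Λ ul.slow
  rw [him, hre, hheat, ec] at h1
  have h2 := hcn.up s.im
  have h3 : Real.log (1 + |s.im|) ≤ Real.log 2 + n / K := by
    have h4 : 1 + |s.im| ≤ 2 * Real.exp (n / K) := by
      have : 1 ≤ Real.exp (n / K) := Real.one_le_exp (by positivity)
      linarith
    have h5 := Real.log_le_log (by positivity) h4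
    rwa [Real.log_mul (by norm_num) (Real.exp_pos _).ne', Real.log_exp] at h5
  have h6 : C * ((d : ℝ) + Real.log (cn s.im)) ≤ n + 0 * ((d : ℝ) + Real.log (cn s.im)) ^ 2 := by
    rw [zero_mul, add_zero]
    have h7 : (d : ℝ) + Real.log (cn s.im) ≤ D' + E * (n / K) := by
      rw [hD']
      have := mul_le_mul_of_nonneg_left h3 hE
      linarith
    have h8 : C * (E * (n / K)) ≤ n / 2 := by
      rw [hK]
      have h9 : C * (E * (n / (2 * (E + 1) * C))) = (E / (E + 1)) * (n / 2) := by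
        field_simp
      rw [h9]
      have h10 : E / (E + 1) ≤ 1 := by
        rw [div_le_one (by linarith)]
        linarith
      have h11 : (0 : ℝ) ≤ n / 2 := by positivity
      nlinarith
    calc C * ((d : ℝ) + Real.log (cn s.im)) ≤ C * (D' + E * (n / K)) := mul_le_mul_of_nonneg_left h7 hC.le
      _ = C * D' + C * (E * (n / K)) := by ring
      _ ≤ n := by linarith
  rw [iter_tr2 hX] at hb1
  obtain ⟨h7, h8⟩ := h1 h6 ((mul_eq_zero.1 hb1).resolve_left hv)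
  rcases hb2 with h9 | h9
  · exact h9 (by linarith)
  · rw [iter_tr2 hX] at h9
    exact h8 ((mul_eq_zero.1 h9).resolve_left hv)

/-- large times -/
theorem huge_of_pk (hv : v ≠ 0) (h : Pk d N cn G Λ) (hcn : CB cn D E) (hX : ∀ z, X z = v * Λ (1 / 2 + z)) :
    HugeX X := by
  obtain ⟨μ, L, ul, ec, -⟩ := h
  obtain ⟨C, hC, hmain⟩ := Pool.Agent.TH839.UH.main_all (ul.hB 1)
  refine ⟨max C 1, 2, le_max_right _ _, le_rfl, ?_⟩
  intro t τ s ht hτ hτ8 hXt hst hbad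
  obtain ⟨hb1, hb2⟩ := hbad
  have h1 := hmain d N 0 μ _ _ ul zero_le_one τ 0 (1 / 2 + s) hτ.le
  have him : (1 / 2 + s : ℂ).im = s.im := by simp
  have hre : (1 / 2 + s : ℂ).re = 1 / 2 + s.re := by simp
  rw [him, hre, ec] at h1
  obtain ⟨ℓ, hℓ⟩ : ∃ ℓ : ℝ, ℓ = (d : ℝ) + Real.log (cn s.im) := ⟨_, rfl⟩
  rw [← hℓ] at h1
  have h3 : Real.log t ≤ ℓ := by
    have h4 := Real.log_le_log (by linarith) (hcn.low s.im (by rw [hst]; linarith))
    rw [hℓ]
    rw [hst] at h4 ⊢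
    have : (0 : ℝ) ≤ d := Nat.cast_nonneg d
    linarith
  have h4 : 0 < Real.log t := Real.log_pos (by linarith)
  have h5 : C ≤ τ * ℓ := by
    have : τ * Real.log t ≤ τ * ℓ := mul_le_mul_of_nonneg_left h3 hτ.le
    have := le_max_left C 1
    linarith
  have hbt : heat τ X s = v * heat τ Λ (1 / 2 + s) := heat_tr2 hX τ s
  have hb1' : heat τ X s = 0 := hb1
  rw [hbt] at hb1'
  obtain ⟨h7, h8⟩ := h1 (by
    rw [Nat.cast_zero, zero_add]
    have h6 : C * ℓ ≤ τ * ℓ * ℓ := mul_le_mul_of_nonneg_right h5 (by linarith)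
    calc _ ≤ τ * ℓ * ℓ := h6
      _ = _ := by ring) (by rw [iteratedDeriv_zero]; exact (mul_eq_zero.1 hb1').resolve_left hv)
  rw [zero_add] at h8
  rcases hb2 with h9 | h9
  · exact h9 (by linarith)
  · have h10 : iteratedDeriv 1 (heat τ X) s = v * iteratedDeriv 1 (heat τ Λ) (1 / 2 + s) :=
      iter_tr2 (fun z => heat_tr2 hX τ z) 1 s
    have h11 : iteratedDeriv 1 (heat τ X) s = 0 := by
      rw [iteratedDeriv_one]
      exact h9
    rw [h10] at h11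
    exact h8 ((mul_eq_zero.1 h11).resolve_left hv)

end lowhuge

/-- A completed L-function of degree `2 r` with everything that is needed. -/
structure PK (r : ℕ) (Λ Z : ℂ → ℂ) : Prop where
  gy : ∃ (H : ℂ → ℂ) (v : ℂ), v ≠ 0 ∧ GY r H (fun z => v * Λ (1 / 2 + z)) Z ∧ GG r H (fun z => v * Λ (1 / 2 + z)) Z
  str : ∀ s : ℂ, Λ (1 / 2 + s) = 0 → |s.re| ≤ 1 / 2
  pk : ∃ (d : ℕ) (N : ℝ) (cn : ℝ → ℝ) (G : ℂ → ℂ) (D E : ℝ), Pk d N cn G Λ ∧ CB cn D E

theorem pk_mul {r r' : ℕ} {Λ Z Λ' Z' : ℂ → ℂ} (h1 : PK r Λ Z) (h2 : PK r' Λ' Z') :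
    PK (r + r') (fun s => Λ s * Λ' s) (fun s => Z s * Z' s) := by
  refine ⟨?_, ?_, ?_⟩
  · obtain ⟨H, v, hv, a1, a2⟩ := h1.gy
    obtain ⟨H', v', hv', b1, b2⟩ := h2.gy
    refine ⟨fun w => H w * H' w, v * v', mul_ne_zero hv hv', ?_, ?_⟩
    · have := gy_mul a1 b1
      rw [Nat.cast_add]
      convert this using 2
      ring
    · have := Pool.Agent.Y693.GL.mul _ _ _ _ _ _ _ _ a2 b2
      rw [Nat.cast_add]
      convert this using 2
      ring
  · intro s hs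
    rcases mul_eq_zero.1 hs with h | h
    · exact h1.str s h
    · exact h2.str s h
  · obtain ⟨d, N, cn, G, D, E, a, b⟩ := h1.pk
    obtain ⟨d', N', cn', G', D', E', a', b'⟩ := h2.pk
    exact ⟨_, _, _, _, _, _, a.mul a', cb_mul b b'⟩

theorem pk_cons {ι : Type} (Λ Z : ι → ℂ → ℂ) (l : List ι) (hl : l ≠ []) (h : ∀ i ∈ l, PK 1 (Λ i) (Z i)) :
    PK l.length (fun s => (l.map fun i => Λ i s).prod) (fun s => (l.map fun i => Z i s).prod) := by
  induction l with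
  | nil => exact absurd rfl hl
  | cons a l ih =>
    rcases eq_or_ne l [] with rfl | hne
    · have h1 := h a (by simp)
      simpa using h1
    · have h1 := pk_mul (h a (by simp)) (ih hne fun i hi => h i (by simp [hi]))
      simp only [List.map_cons, List.prod_cons, List.length_cons]
      rw [add_comm l.length 1]
      exact h1

/-- the theorem on derivatives -/
theorem derivs {r : ℕ} (hr : 1 ≤ r) {Λ Z : ℂ → ℂ} (h : PK r Λ Z) {G : ℂ → ℂ}
    (hG : ∀ z, G z = Λ (1 / 2 + I * z)) :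
    (∀ (n : ℕ) (T : ℝ), (Pool.Agent.Y771.NF.Cnt.ZerD G n T).Finite) ∧
    ∃ c C : ℝ, 0 < c ∧ 0 < C ∧
      (∀ (n : ℕ) (T : ℝ), (Pool.Agent.Y771.NF.Cnt.num (iteratedDeriv n G) (Pool.Agent.Y771.NF.Cnt.ExcD G n T) : ℝ) ≤
        C * Real.exp (-(c * n)) * Pool.Agent.Y771.NF.Cnt.num (iteratedDeriv n G) (Pool.Agent.Y771.NF.Cnt.ZerD G n T)) ∧
      (∀ (n : ℕ) (T : ℝ), 2 ≤ T →
        (Pool.Agent.Y771.NF.Cnt.num (iteratedDeriv n G) (Pool.Agent.Y771.NF.Cnt.ExcD G n T) : ℝ) ≤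
        C * Real.exp (-(c * n)) * T * Real.log T) := by
  obtain ⟨H, v, hv, hy, -⟩ := h.gy
  obtain ⟨d, N, cn, G0, D, E, hpk, hcb⟩ := h.pk
  have hr1 : (1 : ℝ) ≤ r := by exact_mod_cast hr
  obtain ⟨X, hX⟩ : ∃ X : ℂ → ℂ, X = fun z => v * Λ (1 / 2 + z) := ⟨_, rfl⟩
  rw [← hX] at hy
  have hXe : ∀ z, X z = v * Λ (1 / 2 + z) := fun z => by rw [hX]
  have hst : ∀ s : ℂ, X s = 0 → |s.re| ≤ 1 / 2 := by
    intro s hs
    rw [hXe] at hs
    exact h.str s ((mul_eq_zero.1 hs).resolve_left hv)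
  have hne : ∃ z, X z ≠ 0 := by
    refine ⟨1, fun h0 => ?_⟩
    have := hst 1 h0
    norm_num at this
  have hA : AppX X := Pool.Agent.Y275.GL.had1 X hy.cg.cf.diff hy.cg.cf.symm hne hy.cg.slow hst
  have hL : LowX X := low_of_pk hv hpk hcb hXe
  refine Pool.Agent.Y771.NF.Cnt.main_d (X := X) (inv_ne_zero hv) (fun z => ?_) hy.cg.cf.diff hA
    (Pool.Agent.Y693.GL.ddy Pool.Agent.Y412.GL.HSZ.hsz r H X Z (by linarith) hy hA hL) hL
    (Pool.Agent.Y423.GL.totd r H X Z (by linarith) hy.cg hA)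
  rw [hG, hXe, inv_mul_cancel_left₀ hv]

/-- the theorem on the heat flow -/
theorem flows {r : ℕ} (hr : 1 ≤ r) (hr5 : r ≤ 5) {Λ Z : ℂ → ℂ} (h : PK r Λ Z) {G : ℝ → ℂ → ℂ}
    (hG : ∀ (τ : ℝ) (z : ℂ), G τ z = heat τ Λ (1 / 2 + I * z)) :
    (∀ t T : ℝ, 0 ≤ t → (Pool.Agent.Y771.NF.Cnt.ZerH (G t) T).Finite) ∧
    ∃ c C : ℝ, 0 < c ∧ 0 < C ∧ ∀ t T : ℝ, 0 < t → t ≤ 1 / 8 → 2 ≤ T →
      (Pool.Agent.Y771.NF.Cnt.num (G t) (Pool.Agent.Y771.NF.Cnt.ExcH (G t) T) : ℝ) ≤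
        C * Real.exp (-(c * t * Real.log T ^ 2)) *
          Pool.Agent.Y771.NF.Cnt.num (G t) (Pool.Agent.Y771.NF.Cnt.ZerH (G t) T) ∧
      (Pool.Agent.Y771.NF.Cnt.num (G t) (Pool.Agent.Y771.NF.Cnt.ExcH (G t) T) : ℝ) ≤
        C * Real.exp (-(c * t * Real.log T ^ 2)) * T * Real.log T := by
  obtain ⟨H, v, hv, -, hg⟩ := h.gy
  obtain ⟨d, N, cn, G0, D, E, hpk, hcb⟩ := h.pk
  have hr1 : (1 : ℝ) ≤ r := by exact_mod_cast hr
  have hr2 : (r : ℝ) ≤ 5 := by exact_mod_cast hr5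
  obtain ⟨X, hX⟩ : ∃ X : ℂ → ℂ, X = fun z => v * Λ (1 / 2 + z) := ⟨_, rfl⟩
  rw [← hX] at hg
  have hXe : ∀ z, X z = v * Λ (1 / 2 + z) := fun z => by rw [hX]
  have hst : ∀ s : ℂ, X s = 0 → |s.re| ≤ 1 / 2 := by
    intro s hs
    rw [hXe] at hs
    exact h.str s ((mul_eq_zero.1 hs).resolve_left hv)
  have hne : ∃ z, X z ≠ 0 := by
    refine ⟨1, fun h0 => ?_⟩
    have := hst 1 h0
    norm_num at this
  have hH : HugeX X := huge_of_pk hv hpk hcb hXe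
  obtain ⟨K0, hK0, hslow⟩ := hg.cg.slow
  obtain ⟨-, g1, -, g2, -⟩ := Pool.Agent.Y275.GL.hht X (slow_of hg.cg.cf.diff hK0 hslow) hg.cg.cf.symm
    hne hst
  refine Pool.Agent.Y771.NF.Cnt.main_h (X := X) (inv_ne_zero hv) (fun τ _ z => ?_) g1 g2
    (hdx_all r H _ Z (by linarith) (by linarith) hg hst hH) hH
    (Pool.Agent.Y67.GL.toth r H _ Z (by linarith) hg.cg hst)
  rw [hG, heat_tr2 hXe, inv_mul_cancel_left₀ hv]

end Pool.Agent.X244.AZ
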