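import Pool.Agent.Y671.GL.Spec
import Pool.Agent.W388.TC.GoodC
import Pool.Agent.Erdos456.Mertens
import Pool.Agent.H31R2.DH.Detect
import Pool.Agent.W355.UN.Tw

set_option autoImplicit false

/-!
Newforms of weight one as instances of `Frm`.
-/

namespace Pool.Agent.X244.AZ

open UpperHalfPlane hiding I
open MatrixGroups CongruenceSubgroup Filter Topology Complex
open Pool.Agent.Y671.GL
open Pool.Agent.W355.UN (Eu2)
open scoped ComplexConjugate

variable {N : ℕ} [NeZero N] {ψ : DirichletCharacter ℂ N}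
  {f : CuspForm (Gamma1 N : Subgroup (GL (Fin 2) ℝ)) 1} {η : ℂ}

/-- the coefficients -/
noncomputable def al {N : ℕ} (f : CuspForm (Gamma1 N : Subgroup (GL (Fin 2) ℝ)) 1) (n : ℕ) : ℂ :=
  (qExpansion 1 f).coeff n

/-- the nebentypus -/
noncomputable def ps {N : ℕ} (ψ : DirichletCharacter ℂ N) (p : ℕ) : ℂ := ψ (p : ZMod N)

theorem aa_one (lam : ℕ → ℂ) (n : ℕ) : aa 1 lam n = lam n := by
  unfold aa
  simp

omit [NeZero N] in
theorem one_mem1 : (1 : ℝ) ∈ (Gamma1 N : Subgroup (GL (Fin 2) ℝ)).strictPeriods := by simp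

theorem hasSum_f1 (f : CuspForm (Gamma1 N : Subgroup (GL (Fin 2) ℝ)) 1) {w : ℂ} (hw : 0 < w.im) :
    HasSum (fun n : ℕ => al f n * Complex.exp (2 * Real.pi * Complex.I * n * w)) (f (ofComplex w)) := by
  have h := ModularForm.hasSum_qExpansion (Γ := (Gamma1 N : Subgroup (GL (Fin 2) ℝ))) (k := 1) f
    one_pos one_mem1 (ofComplex w)
  convert h using 2 with n
  change _ = al f n * _
  congr 1
  rw [ofComplex_apply_of_im_pos hw]
  unfold Function.Periodic.qParam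
  rw [← Complex.exp_nat_mul]
  congr 1
  push_cast
  ring

theorem im_of_re {z : ℂ} (hz : 0 < z.re) : 0 < (I * z / (2 * Real.pi)).im := by
  have h1 : I * z / (2 * Real.pi) = ((1 / (2 * Real.pi) : ℝ) : ℂ) * (I * z) := by
    push_cast; ring
  rw [h1, Complex.im_ofReal_mul]
  have h2 : (I * z).im = z.re := by simp
  rw [h2]
  have := Real.pi_pos
  positivity

theorem im_val (z : ℂ) : (I * z / (2 * Real.pi)).im = z.re / (2 * Real.pi) := by
  have h1 : I * z / (2 * Real.pi) = ((1 / (2 * Real.pi) : ℝ) : ℂ) * (I * z) := by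
    push_cast; ring
  rw [h1, Complex.im_ofReal_mul]
  have h2 : (I * z).im = z.re := by simp
  rw [h2]
  ring

/-- `Φ(z) = f(iz/2π)` -/
theorem Ph_al (f : CuspForm (Gamma1 N : Subgroup (GL (Fin 2) ℝ)) 1) {z : ℂ} (hz : 0 < z.re) :
    Ph 1 (al f) z = f (ofComplex (I * z / (2 * Real.pi))) := by
  unfold Ph
  rw [← (hasSum_f1 f (im_of_re hz)).tsum_eq]
  refine tsum_congr fun n => ?_
  rw [aa_one]
  congr 2
  have : (Real.pi : ℂ) ≠ 0 := by exact_mod_cast Real.pi_ne_zero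
  field_simp
  rw [Complex.I_sq]
  ring

theorem bd_al (f : CuspForm (Gamma1 N : Subgroup (GL (Fin 2) ℝ)) 1) :
    ∃ C : ℝ, ∀ z : ℂ, 0 < z.re → ‖Ph 1 (al f) z‖ ≤ C * z.re ^ (-(((1 : ℕ) : ℝ) / 2)) := by
  obtain ⟨C, hC⟩ := CuspFormClass.exists_bound (Γ := (Gamma1 N : Subgroup (GL (Fin 2) ℝ))) f
  refine ⟨C * (2 * Real.pi) ^ (((1 : ℕ) : ℝ) / 2), fun z hz => ?_⟩
  rw [Ph_al f hz]
  have h1 := hC (ofComplex (I * z / (2 * Real.pi)))
  have h2 : (ofComplex (I * z / (2 * Real.pi))).im = z.re / (2 * Real.pi) := by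
    rw [ofComplex_apply_of_im_pos (im_of_re hz)]
    exact im_val z
  rw [h2] at h1
  refine h1.trans (le_of_eq ?_)
  have hpi := Real.pi_pos
  have e1 : (((1 : ℤ) : ℝ)) / 2 = ((1 : ℕ) : ℝ) / 2 := by norm_num
  rw [e1, Real.div_rpow hz.le (by positivity), Real.rpow_neg hz.le]
  have h3 : 0 < z.re ^ (((1 : ℕ) : ℝ) / 2) := by positivity
  have h4 : 0 < (2 * Real.pi) ^ (((1 : ℕ) : ℝ) / 2) := by positivity
  field_simp

theorem re_dual {q : ℕ} (hq : 1 ≤ q) {z : ℂ} (hz : 0 < z.re) (b : ℤ) :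
    0 < (4 * Real.pi ^ 2 / (q ^ 2 * z) - 2 * Real.pi * I * b / q : ℂ).re := by
  have hz0 : z ≠ 0 := by
    intro h; rw [h] at hz; simp at hz
  have h1 : (4 * Real.pi ^ 2 / (q ^ 2 * z) : ℂ) = ((4 * Real.pi ^ 2 / q ^ 2 : ℝ) : ℂ) * z⁻¹ := by
    push_cast
    field_simp
  have h2 : (2 * Real.pi * I * b / q : ℂ) = ((2 * Real.pi * b / q : ℝ) : ℂ) * I := by
    push_cast
    ring
  rw [h1, h2, sub_re, Complex.re_ofReal_mul, Complex.re_ofReal_mul, Complex.inv_re, Complex.I_re, mul_zero, sub_zero]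
  have hq0 : (0 : ℝ) < q := by exact_mod_cast hq
  have := Real.pi_pos
  have := Complex.normSq_pos.2 hz0
  positivity

omit [NeZero N] in
lemma f_gamma1 (hf : W388.HasNeb N 1 ψ f) {a b c d : ℤ} (hdet : a * d - b * c = 1) (hc : (N : ℤ) ∣ c)
    {w : ℂ} (hw : 0 < w.im) :
    f (ofComplex ((a * w + b) / (c * w + d))) = ψ (d : ZMod N) * ((c : ℂ) * w + d) * f (ofComplex w) := by
  let γ : SL(2, ℤ) := ⟨!![a, b; c, d], by rw [Matrix.det_fin_two_of]; exact hdet⟩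
  have hγ : γ ∈ Gamma0 N := by
    rw [Gamma0_mem]
    change ((c : ℤ) : ZMod N) = 0
    rwa [ZMod.intCast_zmod_eq_zero_iff_dvd]
  let z : ℍ := ⟨w, hw⟩
  have h1 := hf γ hγ z
  have hz : ofComplex w = z := ofComplex_apply_of_im_pos hw
  have h2 : ((γ • z : ℍ) : ℂ) = (a * w + b) / (c * w + d) := by
    rw [coe_specialLinearGroup_apply]
    have e00 : γ 0 0 = a := rfl
    have e01 : γ 0 1 = b := rfl
    have e10 : γ 1 0 = c := rfl
    have e11 : γ 1 1 = d := rfl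
    have ez : (z : ℂ) = w := rfl
    rw [e00, e01, e10, e11, ez]
    simp only [algebraMap_int_eq, eq_intCast, Complex.ofReal_intCast]
  have h3 : ofComplex ((a * w + b) / (c * w + d)) = γ • z := by
    rw [← h2]
    exact ofComplex_apply _
  have h4 : denom (γ : GL (Fin 2) ℝ) z = c * w + d := by
    rw [ModularGroup.denom_apply]
    rfl
  have h5 : (γ 1 1 : ℤ) = d := rfl
  rw [h3, h1, hz, h4, h5, zpow_one]

theorem cusp_al (hf : W388.HasNeb N 1 ψ f) (q : ℕ) (a b : ℤ) (hq : 1 ≤ q) (hN : N ∣ q)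
    (hab : (q : ℤ) ∣ a * b - 1) (z : ℂ) (hz : 0 < z.re) :
    Ph 1 (al f) (z + 2 * Real.pi * I * a / q) = ψ⁻¹ (a : ZMod N) * (2 * Real.pi / (I * q * z)) ^ 1 *
        Ph 1 (al f) (4 * Real.pi ^ 2 / (q ^ 2 * z) - 2 * Real.pi * I * b / q) := by
  have hz0 : z ≠ 0 := by
    intro h; rw [h] at hz; simp at hz
  have hqC : (q : ℂ) ≠ 0 := by exact_mod_cast (by omega : q ≠ 0)
  have hpi : (Real.pi : ℂ) ≠ 0 := by exact_mod_cast Real.pi_ne_zero
  have hz1 : 0 < (z + 2 * Real.pi * I * a / q : ℂ).re := by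
    have h2 : (2 * Real.pi * I * a / q : ℂ) = ((2 * Real.pi * a / q : ℝ) : ℂ) * I := by
      push_cast
      ring
    rw [h2, add_re, Complex.re_ofReal_mul, Complex.I_re, mul_zero, add_zero]
    exact hz
  rw [Ph_al f hz1, Ph_al f (re_dual hq hz b)]
  obtain ⟨g, hg⟩ := hab
  obtain ⟨w, hw⟩ : ∃ w : ℂ, w = I * (z + 2 * Real.pi * I * a / q) / (2 * Real.pi) := ⟨_, rfl⟩
  have hwi : 0 < w.im := by rw [hw]; exact im_of_re hz1
  have h1 := f_gamma1 hf (a := b) (b := g) (c := q) (d := a) (by linarith)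
    (by exact_mod_cast hN) hwi
  have hI : I ^ 2 = -1 := Complex.I_sq
  have e1 : (((q : ℤ) : ℂ) * w + a) = q * (I * z / (2 * Real.pi)) := by
    rw [hw]
    push_cast
    field_simp
    linear_combination (2 * Real.pi * (a : ℂ)) * hI
  have hgC : (a : ℂ) * b - 1 = q * g := by exact_mod_cast hg
  have e2 : ((b : ℂ) * w + g) / (((q : ℤ) : ℂ) * w + a) =
      I * (4 * Real.pi ^ 2 / (q ^ 2 * z) - 2 * Real.pi * I * b / q) / (2 * Real.pi) := by
    rw [e1, div_eq_iff (by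
      apply mul_ne_zero hqC
      apply div_ne_zero (mul_ne_zero Complex.I_ne_zero hz0)
      exact mul_ne_zero two_ne_zero hpi)]
    rw [hw]
    field_simp
    linear_combination (-4 * Real.pi : ℂ) * hgC + (2 * b * I * z * q + 4 * Real.pi * a * b - 4 * Real.pi) * hI
  rw [e2, e1, hw] at h1
  have hu : ψ⁻¹ (a : ZMod N) * ψ (a : ZMod N) = 1 := by
    have hau : IsUnit (a : ZMod N) := by
      have h3 : (a : ZMod N) * (b : ZMod N) = 1 := by
        have h4 : (N : ℤ) ∣ a * b - 1 := (Int.natCast_dvd_natCast.2 hN).trans ⟨g, hg⟩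
        have h5 := (ZMod.intCast_zmod_eq_zero_iff_dvd (a * b - 1) N).2 h4
        push_cast at h5
        linear_combination h5
      exact IsUnit.of_mul_eq_one _ h3
    rw [← MulChar.mul_apply, inv_mul_cancel, MulChar.one_apply hau]
  rw [h1]
  have e3 : (2 * Real.pi / (I * q * z) * (q * (I * z / (2 * Real.pi))) : ℂ) = 1 := by
    field_simp
  calc f (ofComplex (I * (z + 2 * Real.pi * I * a / q) / (2 * Real.pi)))
      = (ψ⁻¹ (a : ZMod N) * ψ (a : ZMod N)) * (2 * Real.pi / (I * q * z) * (q * (I * z / (2 * Real.pi)))) *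
        f (ofComplex (I * (z + 2 * Real.pi * I * a / q) / (2 * Real.pi))) := by
          rw [hu, e3, one_mul, one_mul]
    _ = _ := by ring

/-- conjugation of the series -/
theorem Ph_conj (k : ℕ) (lam : ℕ → ℂ) (z : ℂ) : Ph k (fun n => conj (lam n)) z = conj (Ph k lam (conj z)) := by
  unfold Ph
  rw [Complex.conj_tsum]
  refine tsum_congr fun n => ?_
  unfold aa
  rw [map_mul, map_mul, Complex.conj_ofReal, ← Complex.exp_conj, map_neg, map_mul, Complex.conj_natCast,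
    Complex.conj_conj]

theorem fricke_al (hf : W388.IsNewfC N 1 ψ f η) (z : ℂ) (hz : 0 < z.re) :
    Ph 1 (al f) (4 * Real.pi ^ 2 / (N * z)) =
      η * ((Real.sqrt N : ℝ) * z / (2 * Real.pi)) ^ 1 * Ph 1 (fun n => conj (al f n)) z := by
  have hz0 : z ≠ 0 := by
    intro h; rw [h] at hz; simp at hz
  have hN0 : (0 : ℝ) < N := by exact_mod_cast Nat.pos_of_ne_zero (NeZero.ne N)
  have hNC : (N : ℂ) ≠ 0 := by exact_mod_cast NeZero.ne N
  have hpi : (Real.pi : ℂ) ≠ 0 := by exact_mod_cast Real.pi_ne_zero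
  have hpi0 := Real.pi_pos
  have hre : 0 < (4 * Real.pi ^ 2 / (N * z) : ℂ).re := by
    have h1 : (4 * Real.pi ^ 2 / (N * z) : ℂ) = ((4 * Real.pi ^ 2 / N : ℝ) : ℂ) * z⁻¹ := by
      push_cast
      field_simp
    rw [h1, Complex.re_ofReal_mul, Complex.inv_re]
    have := Complex.normSq_pos.2 hz0
    positivity
  have hzc : 0 < (conj z).re := by simpa using hz
  rw [Ph_conj, Ph_al f hre, Ph_al f hzc]
  have h1 := hf.fricke (ofComplex (I * z / (2 * Real.pi)))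
    (ofComplex (I * (4 * Real.pi ^ 2 / (N * z)) / (2 * Real.pi))) (ofComplex (I * conj z / (2 * Real.pi))) (by
      rw [ofComplex_apply_of_im_pos (im_of_re hz), ofComplex_apply_of_im_pos (im_of_re hre)]
      show I * (4 * Real.pi ^ 2 / (N * z)) / (2 * Real.pi) * (N * (I * z / (2 * Real.pi))) = -1
      field_simp
      rw [Complex.I_sq]
      ring) (by
      rw [ofComplex_apply_of_im_pos (im_of_re hz), ofComplex_apply_of_im_pos (im_of_re hzc)]
      show I * conj z / (2 * Real.pi) = -(starRingEnd ℂ) (I * z / (2 * Real.pi))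
      have h3 : conj (2 : ℂ) = 2 := Complex.conj_ofNat 2
      rw [map_div₀, map_mul, map_mul, Complex.conj_I, Complex.conj_ofReal, h3]
      ring)
  rw [h1]
  congr 2
  rw [ofComplex_apply_of_im_pos (im_of_re hz), zpow_one, pow_one]
  show ((Real.sqrt N : ℝ) : ℂ) * (I * z / (2 * Real.pi)) / I = _
  field_simp

omit [NeZero N] in
/-- the Euler product -/
theorem eu2_al (hf : W388.IsNewfC N 1 ψ f η)
    (hb : ∀ p : ℕ, p.Prime → ∃ u v : ℂ, ‖u‖ ≤ 1 ∧ ‖v‖ ≤ 1 ∧ al f p = u + v ∧ ψ (p : ZMod N) = u * v) :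
    Eu2 (al f) := by
  refine ⟨hf.one, hf.mul, fun p hp => ?_⟩
  obtain ⟨u, v, hu, hv, h1, h2⟩ := hb p hp
  refine ⟨u, v, hu, hv, h1, fun k => ?_⟩
  have h3 := hf.pow p k hp
  show (qExpansion 1 f).coeff (p ^ (k + 2)) = _
  rw [h3, ← h2]
  have e : (p : ℂ) ^ ((1 : ℤ) - 1) = 1 := by norm_num
  rw [e, mul_one]
  rfl

omit [NeZero N] in
/-- the mean square over the primes -/
theorem rs_al (hb : ∀ p : ℕ, p.Prime → ‖al f p‖ ≤ 2) : ∃ C : ℝ, ∀ x : ℝ, 2 ≤ x →
    ∑ p ∈ (Finset.Icc 1 ⌊x⌋₊).filter Nat.Prime, ‖al f p‖ ^ 2 * Real.log p / p ≤ 4 * Real.log x + C := by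
  obtain ⟨C, hC⟩ := Pool.Agent.Erdos456.Mert.mertens_log
  refine ⟨4 * C, fun x hx => ?_⟩
  have hfl : 1 ≤ ⌊x⌋₊ := Nat.le_floor (by push_cast; linarith)
  have h1 := (abs_le.1 (hC ⌊x⌋₊ hfl)).2
  have h2 : Real.log (⌊x⌋₊ : ℝ) ≤ Real.log x :=
    Real.log_le_log (by exact_mod_cast hfl) (Nat.floor_le (by linarith))
  calc ∑ p ∈ (Finset.Icc 1 ⌊x⌋₊).filter Nat.Prime, ‖al f p‖ ^ 2 * Real.log p / p
      ≤ ∑ p ∈ (Finset.Icc 1 ⌊x⌋₊).filter Nat.Prime, 4 * (Real.log p / p) := by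
        refine Finset.sum_le_sum fun p hp => ?_
        have h3 := hb p (Finset.mem_filter.1 hp).2
        have h4 : 0 ≤ Real.log p / p := div_nonneg (Real.log_natCast_nonneg p) (Nat.cast_nonneg p)
        have h5 : ‖al f p‖ ^ 2 ≤ 4 := by nlinarith [norm_nonneg (al f p)]
        rw [mul_div_assoc]
        exact mul_le_mul_of_nonneg_right h5 h4
    _ = 4 * ∑ p ∈ (Finset.Icc 1 ⌊x⌋₊).filter Nat.Prime, Real.log p / p := by rw [Finset.mul_sum]
    _ ≤ _ := by linarith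

/-- **Newforms of weight one are forms.** -/
theorem frm_al (hf : W388.IsNewfC N 1 ψ f η)
    (hb : ∀ p : ℕ, p.Prime → ∃ u v : ℂ, ‖u‖ ≤ 1 ∧ ‖v‖ ≤ 1 ∧ al f p = u + v ∧ ψ (p : ZMod N) = u * v) :
    Frm 1 N (ps ψ) (al f) := by
  have hE := eu2_al hf hb
  refine ⟨le_rfl, Nat.pos_of_ne_zero (NeZero.ne N), W388.coeff_zeroC f, hf.one, hf.mul, ?_, ?_, ?_, ?_,
    bd_al f, ?_, ?_⟩
  · intro p j hp
    have h3 := hf.pow p j hp
    have e : (p : ℂ) ^ ((1 : ℤ) - 1) = 1 := by norm_num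
    rw [e, mul_one] at h3
    exact h3
  · intro p
    exact ψ.norm_le_one _
  · obtain ⟨C, hC1, hC⟩ := DH31.div_bound (ε := 1 / 4) (by norm_num)
    refine ⟨1 / 4, C, by norm_num, by norm_num, fun n hn => ?_⟩
    exact (hE.le (by omega)).trans (hC n hn)
  · refine rs_al fun p hp => ?_
    obtain ⟨u, v, hu, hv, h1, h2⟩ := hb p hp
    rw [h1]
    exact (norm_add_le _ _).trans (by linarith)
  · refine ⟨fun a => ψ⁻¹ (a : ZMod N), ?_, fun q a b hq hN hab z hz => cusp_al hf.neb q a b hq hN hab z hz⟩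
    intro a ha
    have h2 : IsUnit ((a : ℤ) : ZMod N) := by
      obtain ⟨x, y, hxy⟩ := ha
      have h3 : ((x : ℤ) : ZMod N) * ((a : ℤ) : ZMod N) = 1 := by
        have := congrArg (fun m : ℤ => (m : ZMod N)) hxy
        simpa using this
      exact IsUnit.of_mul_eq_one_right _ h3
    obtain ⟨v, hv⟩ := h2
    show ‖ψ⁻¹ ((a : ℤ) : ZMod N)‖ = 1
    rw [← hv]
    exact (ψ⁻¹).unit_norm_eq_one v
  · exact ⟨η, hf.sign, fun z hz => fricke_al hf z hz⟩

end Pool.Agent.X244.AZ
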